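import Pool.Agent.D0H68.Eng.Defs

set_option autoImplicit false

namespace Pool.Agent.D0H68.Eng

open Function

theorem eval_map {R S : Type} [NonUnitalRing R] [NonUnitalRing S] (f : R →ₙ+* S) (a : ℕ → R)
    (t : RTerm) : t.eval (fun n => f (a n)) = f (t.eval a) := by
  induction t with
  | var n => rfl
  | zero => exact (map_zero f).symm
  | add s t hs ht => rw [RTerm.eval, RTerm.eval, hs, ht, map_add]
  | neg s hs => rw [RTerm.eval, RTerm.eval, hs, map_neg]
  | mul s t hs ht => rw [RTerm.eval, RTerm.eval, hs, ht, map_mul]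

theorem eval_pi {ι : Type} {R : ι → Type} [∀ i, NonUnitalRing (R i)] (a : ℕ → ∀ i, R i)
    (t : RTerm) (i : ι) : t.eval a i = t.eval (fun n => a n i) := by
  induction t with
  | var n => rfl
  | zero => rfl
  | add s t hs ht => rw [RTerm.eval, RTerm.eval, Pi.add_apply, hs, ht]
  | neg s hs => rw [RTerm.eval, RTerm.eval, Pi.neg_apply, hs]
  | mul s t hs ht => rw [RTerm.eval, RTerm.eval, Pi.mul_apply, hs, ht]

/-- A homomorphic image of a subring, in a flexible form. -/
theorem sat_of_span {U A B : Type} [NonUnitalRing U] [NonUnitalRing A] [NonUnitalRing B]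
    (φ : U →ₙ+* A) (ψ : U →ₙ+* B) (hψ : Surjective ψ) (hker : ∀ u, φ u = 0 → ψ u = 0)
    {t : RTerm} (ht : Sat A t) : Sat B t := by
  intro b
  choose u hu using fun n => hψ (b n)
  have h1 : φ (t.eval u) = 0 := by rw [← eval_map]; exact ht _
  have h2 := hker _ h1
  rw [← eval_map] at h2
  rw [← h2]
  congr 1
  funext n
  exact (hu n).symm

theorem sat_of_injective {A B : Type} [NonUnitalRing A] [NonUnitalRing B]
    (φ : B →ₙ+* A) (hφ : Injective φ) {t : RTerm} (ht : Sat A t) : Sat B t :=
  sat_of_span φ (NonUnitalRingHom.id B) surjective_id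
    (fun u hu => hφ (by rw [map_zero]; exact hu)) ht

theorem sat_of_surjective {A B : Type} [NonUnitalRing A] [NonUnitalRing B]
    (ψ : A →ₙ+* B) (hψ : Surjective ψ) {t : RTerm} (ht : Sat A t) : Sat B t :=
  sat_of_span (NonUnitalRingHom.id A) ψ hψ
    (fun u hu => by rw [show u = 0 from hu, map_zero]) ht

theorem sat_of_equiv {A B : Type} [NonUnitalRing A] [NonUnitalRing B]
    (e : A ≃+* B) {t : RTerm} (ht : Sat A t) : Sat B t :=
  sat_of_surjective (e : A →ₙ+* B) e.surjective ht

theorem sat_pi {ι : Type} {R : ι → Type} [∀ i, NonUnitalRing (R i)] {t : RTerm}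
    (h : ∀ i, Sat (R i) t) : Sat (∀ i, R i) t := by
  intro a
  funext i
  rw [eval_pi]
  exact h i _

/-- The closure properties of a variety that are used below. -/
structure Closed (C : RingClass) : Prop where
  span : ∀ {U A B : Type} [NonUnitalRing U] [NonUnitalRing A] [NonUnitalRing B]
    (φ : U →ₙ+* A) (ψ : U →ₙ+* B), Surjective ψ → (∀ u, φ u = 0 → ψ u = 0) → C A → C B
  pi : ∀ {ι : Type} (R : ι → Type) [∀ i, NonUnitalRing (R i)], (∀ i, C (R i)) → C (∀ i, R i)

theorem IsVariety.closed {C : RingClass} (hC : IsVariety C) : Closed C := by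
  obtain ⟨I, hI⟩ := hC
  constructor
  · intro U A B _ _ _ φ ψ hψ hker hA
    rw [hI] at hA ⊢
    intro t ht
    exact sat_of_span φ ψ hψ hker (hA t ht)
  · intro ι R _ h
    rw [hI]
    intro t ht
    exact sat_pi fun i => (hI _).1 (h i) t ht

theorem Closed.of_injective {C : RingClass} (hC : Closed C) {A B : Type} [NonUnitalRing A]
    [NonUnitalRing B] (φ : B →ₙ+* A) (hφ : Injective φ) (h : C A) : C B :=
  hC.span φ (NonUnitalRingHom.id B) surjective_id
    (fun u hu => hφ (by rw [map_zero]; exact hu)) h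

theorem Closed.of_surjective {C : RingClass} (hC : Closed C) {A B : Type} [NonUnitalRing A]
    [NonUnitalRing B] (ψ : A →ₙ+* B) (hψ : Surjective ψ) (h : C A) : C B :=
  hC.span (NonUnitalRingHom.id A) ψ hψ (fun u hu => by rw [show u = 0 from hu, map_zero]) h

theorem Closed.of_equiv {C : RingClass} (hC : Closed C) {A B : Type} [NonUnitalRing A]
    [NonUnitalRing B] (e : A ≃+* B) (h : C A) : C B :=
  hC.of_surjective (e : A →ₙ+* B) e.surjective h

theorem comm_map {R S : Type} [NonUnitalRing R] [NonUnitalRing S] (f : R →ₙ+* S) (x y : R)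
    (n : ℕ) : f (comm x y n) = comm (f x) (f y) n := by
  induction n with
  | zero => rfl
  | succ n ih => rw [comm, comm, map_sub, map_mul, map_mul, ih]

theorem comm_pi {ι : Type} {R : ι → Type} [∀ i, NonUnitalRing (R i)] (x y : ∀ i, R i) (n : ℕ)
    (i : ι) : comm x y n i = comm (x i) (y i) n := by
  induction n with
  | zero => rfl
  | succ n ih => rw [comm, comm, Pi.sub_apply, Pi.mul_apply, Pi.mul_apply, ih]

theorem comm_add {R : Type} [NonUnitalRing R] (x y : R) (m n : ℕ) :
    comm x y (m + n) = comm (comm x y m) y n := by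
  induction n with
  | zero => rfl
  | succ n ih => rw [← add_assoc, comm, comm, ih]

theorem comm_zero_left {R : Type} [NonUnitalRing R] (y : R) (n : ℕ) : comm 0 y n = 0 := by
  induction n with
  | zero => rfl
  | succ n ih => rw [comm, ih, zero_mul, mul_zero, sub_zero]

/-- If commuting elements, `[z x, _n y] = z [x, _n y]`. -/
theorem comm_mul_left {R : Type} [NonUnitalRing R] {x y z : R} (h : z * y = y * z) (n : ℕ) :
    comm (z * x) y n = z * comm x y n := by
  induction n with
  | zero => rfl
  | succ n ih => rw [comm, comm, ih, mul_sub, mul_assoc, ← mul_assoc y z, ← h, mul_assoc z y]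

end Pool.Agent.D0H68.Eng
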