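import Pool.Agent.D0H68.Eng.Poly

set_option autoImplicit false

namespace Pool.Agent.D0H68.Eng

open Function Polynomial

section Eig

theorem exists_eig_list {K M : Type} [Field K] [AddCommGroup M] (Φ : K[X] →+* Module.End ℤ M)
    (l : List K) : ∀ v : M, v ≠ 0 → Φ (l.map (fun c => X - C c)).prod v = 0 →
      ∃ c ∈ l, ∃ d : M, d ≠ 0 ∧ Φ (X - C c) d = 0 := by
  induction l with
  | nil =>
    intro v hv h
    rw [List.map_nil, List.prod_nil, map_one] at h
    exact absurd h hv
  | cons a l ih =>
    intro v hv h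
    rw [List.map_cons, List.prod_cons, map_mul] at h
    by_cases h1 : Φ (l.map (fun c => X - C c)).prod v = 0
    · obtain ⟨c, hc, d, hd⟩ := ih v hv h1
      exact ⟨c, List.mem_cons_of_mem _ hc, d, hd⟩
    · exact ⟨a, List.mem_cons_self, _, h1, h⟩

theorem exists_eig {K M : Type} [Field K] [Finite K] [AddCommGroup M]
    (f : K →+* Module.End ℤ M) (δ : Module.End ℤ M) (hcomm : ∀ c, Commute (f c) δ)
    (hδ : δ ^ Nat.card K = δ) (x : M) (hx : δ x ≠ 0) :
    ∃ c : K, c ≠ 0 ∧ ∃ d : M, d ≠ 0 ∧ δ d = f c d := by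
  classical
  have := Fintype.ofFinite K
  let Φ : K[X] →+* Module.End ℤ M := eval₂RingHom' f δ hcomm
  have hΦX : Φ X = δ := by simp [Φ, eval₂RingHom']
  have hΦC : ∀ c, Φ (C c) = f c := fun c => by simp [Φ, eval₂RingHom']
  have hprod : (X ^ Fintype.card K - X : K[X]) =
      ((Finset.univ.erase (0 : K)).toList.map (fun c => X - C c)).prod * X := by
    have h1 : (X ^ Fintype.card K - X : K[X]).Monic := by
      apply monic_X_pow_sub
      rw [degree_X]
      exact_mod_cast Fintype.one_lt_card
    have h2 := prod_multiset_X_sub_C_of_monic_of_roots_card_eq h1 (by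
      rw [FiniteField.roots_X_pow_card_sub_X,
        FiniteField.X_pow_card_sub_X_natDegree_eq K Fintype.one_lt_card]
      rfl)
    rw [FiniteField.roots_X_pow_card_sub_X] at h2
    rw [← h2]
    have h3 : (Finset.univ : Finset K) = insert 0 (Finset.univ.erase 0) := by
      rw [Finset.insert_erase (Finset.mem_univ _)]
    have h4 : (Multiset.map (fun a => X - C a) (Finset.univ : Finset K).val).prod =
        ∏ a : K, (X - C a) := rfl
    rw [h4]
    nth_rewrite 1 [h3]
    rw [Finset.prod_insert (Finset.notMem_erase _ _), C_0, sub_zero, mul_comm,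
      Finset.prod_map_toList]
  have h0 : Φ ((Finset.univ.erase (0 : K)).toList.map (fun c => X - C c)).prod (δ x) = 0 := by
    have h1 : Φ (X ^ Fintype.card K - X) x = 0 := by
      rw [map_sub, map_pow, hΦX, ← Nat.card_eq_fintype_card, hδ, sub_self]
      rfl
    rw [hprod, map_mul, hΦX] at h1
    exact h1
  obtain ⟨c, hc, d, hd, hcd⟩ := exists_eig_list Φ _ _ hx h0
  refine ⟨c, ?_, d, hd, ?_⟩
  · rw [Finset.mem_toList] at hc
    exact Finset.ne_of_mem_erase hc
  · rw [map_sub, hΦX, hΦC] at hcd
    exact sub_eq_zero.1 hcd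

end Eig

section Domain

variable {D : Type} [Ring D] [IsDomain D]

/-- In a domain, an element with finite centralizer is central. -/
theorem central_of_finite (y : D) (hfin : Finite (Subring.centralizer ({y} : Set D))) (x : D) :
    x * y = y * x := by
  classical
  obtain ⟨C, hC⟩ : ∃ C, C = Subring.centralizer ({y} : Set D) := ⟨_, rfl⟩
  rw [← hC] at hfin
  have hmemC : ∀ c, c ∈ C ↔ y * c = c * y := by
    intro c
    rw [hC, Subring.mem_centralizer_iff]
    simp
  have hyC : y ∈ C := (hmemC y).2 rfl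
  have hField : IsField C := Finite.isDomain_to_isField C
  let iF : Field C := hField.toField
  have hcommC : ∀ a ∈ C, ∀ b ∈ C, a * b = b * a := by
    intro a ha b hb
    have := hField.mul_comm ⟨a, ha⟩ ⟨b, hb⟩
    exact congrArg Subtype.val this
  have := Fintype.ofFinite C
  -- the characteristic
  obtain ⟨p, hp⟩ := CharP.exists C
  obtain ⟨⟨n, hn0⟩, hprime, hcard⟩ := FiniteField.card C p
  have hpf : Fact p.Prime := ⟨hprime⟩
  have hpD : CharP D p := by
    have := charP_of_injective_ringHom (f := (C.subtype : C →+* D)) Subtype.val_injective p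
    exact this
  have hpE : CharP (Module.End ℤ D) p := by
    refine charP_of_injective_ringHom (f := (Algebra.lmul ℤ D : D →+* Module.End ℤ D)) ?_ p
    intro a b hab
    have := LinearMap.congr_fun hab (1 : D)
    simpa using this
  have hpowC : ∀ c ∈ C, c ^ Fintype.card C = c := by
    intro c hc
    have := FiniteField.pow_card (⟨c, hc⟩ : C)
    exact congrArg Subtype.val this
  by_contra hxy
  -- an eigenvector
  let δ : Module.End ℤ D := Ry y - Ly y
  have hδq : δ ^ Nat.card C = δ := by
    have hc : Commute (Ry y) (Ly y) := by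
      show Ry y * Ly y = Ly y * Ry y
      ext u
      exact mul_assoc y u y
    rw [Nat.card_eq_fintype_card, hcard]
    show (Ry y - Ly y) ^ p ^ n = _
    rw [sub_pow_char_pow_of_commute _ _ hc, Ry, Ly, LinearMap.pow_mulRight, LinearMap.pow_mulLeft]
    have hy : y ^ p ^ n = y := by
      have := hpowC y hyC
      rwa [hcard] at this
    rw [hy]
  obtain ⟨c, hc0, d, hd0, hcd⟩ := exists_eig
    (((Algebra.lmul ℤ D : D →+* Module.End ℤ D).comp C.subtype)) δ (by
      intro c
      show _ * δ = δ * _
      ext u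
      show (c : D) * (u * y - y * u) = (c : D) * u * y - y * ((c : D) * u)
      rw [mul_sub, mul_assoc, ← mul_assoc y, (hmemC c).1 c.2, mul_assoc]) hδq x (by
      show x * y - y * x ≠ 0
      exact sub_ne_zero.2 hxy)
  have hcd' : d * y = (y + c) * d := by
    have h1 : d * y - y * d = c * d := hcd
    rw [add_mul, ← h1, add_sub_cancel]
  obtain ⟨y', hy'⟩ : ∃ y' : D, y' = y + c := ⟨_, rfl⟩
  rw [← hy'] at hcd'
  have hy'C : y' ∈ C := by rw [hy']; exact C.add_mem hyC c.2
  have hyy' : y' ≠ y := by
    intro h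
    rw [hy'] at h
    apply hc0
    apply Subtype.ext
    exact left_eq_add.1 h.symm
  -- the subring generated by `y`
  let K₀ : Subring D := Subring.closure {y}
  have hK₀C : K₀ ≤ C := by
    rw [Subring.closure_le]
    rintro _ rfl
    exact hyC
  have hK₀fin : Finite K₀ := Finite.of_injective (Subring.inclusion hK₀C)
    (Subring.inclusion_injective hK₀C)
  have hyK₀ : y ∈ K₀ := Subring.subset_closure rfl
  have hpowK : ∀ k ∈ K₀, k ^ Nat.card K₀ = k := by
    intro k hk
    have hFK : IsField K₀ := Finite.isDomain_to_isField K₀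
    let _ := hFK.toField
    have := Fintype.ofFinite K₀
    have := FiniteField.pow_card (⟨k, hk⟩ : K₀)
    rw [Nat.card_eq_fintype_card]
    exact congrArg Subtype.val this
  have hy'K₀ : y' ∈ K₀ := by
    have h1 : y' ^ Nat.card K₀ = y' := by
      have h2 : ∀ j : ℕ, d * y ^ j = y' ^ j * d := by
        intro j
        induction j with
        | zero => simp
        | succ j ih => rw [pow_succ, ← mul_assoc, ih, mul_assoc, hcd', ← mul_assoc, ← pow_succ]
      have h3 := h2 (Nat.card K₀)
      rw [hpowK y hyK₀, hcd'] at h3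
      exact (mul_right_cancel₀ hd0 h3).symm
    -- root counting in the field `C`
    have hone : 1 < Nat.card K₀ := by
      rw [Finite.one_lt_card_iff_nontrivial]
      infer_instance
    let P : C[X] := X ^ Nat.card K₀ - X
    have hP0 : P ≠ 0 := FiniteField.X_pow_card_sub_X_ne_zero C hone
    have hPdeg : P.natDegree = Nat.card K₀ := FiniteField.X_pow_card_sub_X_natDegree_eq C hone
    have := Fintype.ofFinite K₀
    let s : Finset C := (Finset.univ : Finset K₀).map
      ⟨Subring.inclusion hK₀C, Subring.inclusion_injective hK₀C⟩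
    have hs : s.card = Nat.card K₀ := by
      rw [Finset.card_map, Finset.card_univ, Nat.card_eq_fintype_card]
    have hmem : ∀ c : C, c ^ Nat.card K₀ = c → c ∈ P.roots.toFinset := by
      intro c hc
      rw [Multiset.mem_toFinset, mem_roots hP0]
      simp only [P, IsRoot.def, eval_sub, eval_pow, eval_X]
      rw [hc, sub_self]
    have hsub : s ⊆ P.roots.toFinset := by
      intro c hc
      obtain ⟨k, -, rfl⟩ := Finset.mem_map.1 hc
      apply hmem
      apply Subtype.ext
      exact hpowK k.1 k.2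
    have hle : P.roots.toFinset.card ≤ s.card := by
      rw [hs, ← hPdeg]
      exact (Multiset.toFinset_card_le _).trans (card_roots' P)
    have heq := Finset.eq_of_subset_of_card_le hsub hle
    have hy's : (⟨y', hy'C⟩ : C) ∈ s := by
      rw [heq]
      apply hmem
      apply Subtype.ext
      exact h1
    obtain ⟨k, -, hk⟩ := Finset.mem_map.1 hy's
    have : (k : D) = y' := congrArg Subtype.val hk
    rw [← this]
    exact k.2
  -- conjugation by `d` on `K₀`
  have hconj : ∀ k ∈ K₀, ∃ k' ∈ K₀, d * k = k' * d := by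
    intro k hk
    induction hk using Subring.closure_induction with
    | mem k hk => rw [Set.mem_singleton_iff.1 hk]; exact ⟨y', hy'K₀, hcd'⟩
    | zero => exact ⟨0, K₀.zero_mem, by simp⟩
    | one => exact ⟨1, K₀.one_mem, by simp⟩
    | add a b _ _ ha hb =>
      obtain ⟨a', ha', ha2⟩ := ha
      obtain ⟨b', hb', hb2⟩ := hb
      exact ⟨a' + b', K₀.add_mem ha' hb', by rw [mul_add, ha2, hb2, add_mul]⟩
    | neg a _ ha =>
      obtain ⟨a', ha', ha2⟩ := ha
      exact ⟨-a', K₀.neg_mem ha', by rw [mul_neg, ha2, neg_mul]⟩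
    | mul a b _ _ ha hb =>
      obtain ⟨a', ha', ha2⟩ := ha
      obtain ⟨b', hb', hb2⟩ := hb
      exact ⟨a' * b', K₀.mul_mem ha' hb', by rw [← mul_assoc, ha2, mul_assoc, hb2, mul_assoc]⟩
  choose σ0 hσ0 hσ1 using hconj
  let σ : K₀ → K₀ := fun k => ⟨σ0 k.1 k.2, hσ0 k.1 k.2⟩
  have hσ : ∀ k : K₀, d * (k : D) = (σ k : D) * d := fun k => hσ1 k.1 k.2
  have hσinj : Injective σ := by
    intro a b hab
    apply Subtype.ext
    have h1 := hσ a
    rw [hab, ← hσ b] at h1
    exact mul_left_cancel₀ hd0 h1
  have hσpow : ∀ (i : ℕ) (k : K₀), d ^ i * (k : D) = (σ^[i] k : D) * d ^ i := by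
    intro i
    induction i with
    | zero => intro k; simp
    | succ i ih =>
      intro k
      rw [pow_succ, mul_assoc, hσ k, ← mul_assoc, ih, mul_assoc, Function.iterate_succ_apply]
  obtain ⟨m, hm0, hm⟩ := hσinj.mem_periodicPts (⟨y, hyK₀⟩ : K₀)
  have hdm : d ^ m ∈ C := by
    rw [hmemC]
    have h1 := hσpow m ⟨y, hyK₀⟩
    rw [hm] at h1
    exact h1.symm
  have hdm0 : d ^ m ≠ 0 := pow_ne_zero _ hd0
  obtain ⟨N, hN0, hN⟩ : ∃ N : ℕ, 0 < N ∧ d ^ N = 1 := by
    refine ⟨m * (Fintype.card C - 1), ?_, ?_⟩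
    · have := Fintype.one_lt_card (α := C)
      exact Nat.mul_pos hm0 (by omega)
    · have h1 := FiniteField.pow_card_sub_one_eq_one (⟨d ^ m, hdm⟩ : C) (by
        intro h
        exact hdm0 (congrArg Subtype.val h))
      rw [pow_mul]
      exact congrArg Subtype.val h1
  -- the finite monoid
  let M : Submonoid D :=
    { carrier := {u | ∃ k ∈ K₀, ∃ i : ℕ, u = k * d ^ i}
      one_mem' := ⟨1, K₀.one_mem, 0, by simp⟩
      mul_mem' := by
        rintro _ _ ⟨k, hk, i, rfl⟩ ⟨l, hl, j, rfl⟩
        refine ⟨k * (σ^[i] ⟨l, hl⟩ : K₀), K₀.mul_mem hk (Subtype.mem _), i + j, ?_⟩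
        have := hσpow i ⟨l, hl⟩
        simp only at this
        rw [mul_assoc, ← mul_assoc (d ^ i), this, pow_add]
        simp only [mul_assoc] }
  have hMfin : (M : Set D).Finite := by
    have h1 : ((fun q : D × ℕ => q.1 * d ^ q.2) '' ((K₀ : Set D) ×ˢ (Set.Iio N))).Finite :=
      ((Set.toFinite _).prod (Set.finite_Iio N)).image _
    refine h1.subset ?_
    rintro _ ⟨k, hk, i, rfl⟩
    refine ⟨(k, i % N), ⟨hk, Nat.mod_lt _ hN0⟩, ?_⟩
    simp only
    conv_rhs => rw [← Nat.div_add_mod i N, pow_add, pow_mul, hN, one_pow, one_mul]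
  let E : Subring D := Subring.closure (M : Set D)
  have hEadd : (E : Set D) = (AddSubgroup.closure (M : Set D) : Set D) := by
    ext u
    show u ∈ E ↔ _
    rw [Subring.mem_closure_iff, Submonoid.closure_eq]
    rfl
  have hEfin : Finite E := by
    have h1 : AddGroup.FG (AddSubgroup.closure (M : Set D)) := by
      have := hMfin.to_subtype
      exact AddGroup.closure_finite_fg _
    have h2 : Finite (AddSubgroup.closure (M : Set D)) := by
      apply AddCommGroup.finite_of_fg_isAddTorsion
      intro g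
      rw [isOfFinAddOrder_iff_nsmul_eq_zero]
      refine ⟨p, hprime.pos, ?_⟩
      apply Subtype.ext
      show p • (g : D) = 0
      rw [nsmul_eq_mul, CharP.cast_eq_zero, zero_mul]
    have h3 : Finite (E : Set D) := by rw [hEadd]; exact h2
    exact h3
  have hEcomm := (Finite.isDomain_to_isField E).mul_comm
  have hyE : y ∈ E := Subring.subset_closure ⟨y, hyK₀, 0, by simp⟩
  have hdE : d ∈ E := Subring.subset_closure ⟨1, K₀.one_mem, 1, by simp⟩
  have h1 := congrArg Subtype.val (hEcomm ⟨d, hdE⟩ ⟨y, hyE⟩)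
  have h2 : d * y = y * d := h1
  rw [hcd'] at h2
  exact hyy' (mul_right_cancel₀ hd0 h2)

end Domain

end Pool.Agent.D0H68.Eng
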