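import Pool.Agent.D0H68.Eng.Small

set_option autoImplicit false

namespace Pool.Agent.D0H68.Eng

open Function

/-- Critical rings satisfying `TT` are small. -/
theorem critical_card {R : Type} [NonUnitalRing R] {p q f : ℕ} (hp : p.Prime) (hf : 0 < f)
    (hq : q = p ^ f) (h : models (TT p q) R) (hc : IsCritical R) :
    Finite R ∧ Nat.card R ≤ q ^ 3 := by
  classical
  obtain ⟨hfin, hv⟩ := hc
  have hv' : ∃ t : RTerm, (∀ (S : Type) [NonUnitalRing S], properFactors R S → Sat S t) ∧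
      ¬ Sat R t := by
    by_contra hcon
    apply hv
    intro t ht
    by_contra hs
    exact hcon ⟨t, ht, hs⟩
  obtain ⟨t, ht, hs⟩ := hv'
  have hs' : ∃ a : ℕ → R, t.eval a ≠ 0 := by
    by_contra hcon
    push Not at hcon
    exact hs hcon
  obtain ⟨a, ha⟩ := hs'
  obtain ⟨D, _, j, hj, hE⟩ := exists_env hp hf hq h
  have hmain := hE.card_le (j (t.eval a)) ⟨_, rfl⟩ (by
    intro h0
    exact ha (hj (by rw [h0, map_zero]))) (by
    intro Q hQ2 hQ0 hQS
    obtain ⟨x, hxQ, hx0⟩ : ∃ x ∈ Q, x ≠ 0 := by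
      by_contra hcon
      push Not at hcon
      apply hQ0
      rw [eq_bot_iff]
      intro x hx
      exact hcon x hx
    obtain ⟨r, rfl⟩ := hQS hxQ
    have hr0 : r ≠ 0 := by
      rintro rfl
      exact hx0 (map_zero j)
    let φ : R →ₙ+* (D ⧸ Q) := (nu (Ideal.Quotient.mk Q)).comp j
    let ψ : R →ₙ+* NonUnitalRingHom.range φ :=
      { toFun := fun x => ⟨φ x, ⟨x, rfl⟩⟩
        map_mul' := fun x y => Subtype.ext (map_mul φ x y)
        map_zero' := Subtype.ext (map_zero φ)
        map_add' := fun x y => Subtype.ext (map_add φ x y) }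
    have hψ : Surjective ψ := by
      rintro ⟨_, ⟨x, rfl⟩⟩
      exact ⟨x, rfl⟩
    have hψr : ψ r = ψ 0 := by
      rw [map_zero]
      apply Subtype.ext
      exact Ideal.Quotient.eq_zero_iff_mem.2 hxQ
    have hprop : properFactors R (NonUnitalRingHom.range φ) := by
      refine ⟨⟨⊤, ψ.comp (NonUnitalSubringClass.subtype (⊤ : NonUnitalSubring R)), ?_⟩, ?_⟩
      · intro s
        obtain ⟨x, rfl⟩ := hψ s
        exact ⟨⟨x, trivial⟩, rfl⟩
      · refine ⟨fun e => ?_⟩
        have h1 : Surjective (fun x : R => e (ψ x)) := e.surjective.comp hψ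
        have h2 : Injective (fun x : R => e (ψ x)) := Finite.injective_iff_surjective.2 h1
        exact hr0 (h2 (congrArg e hψr))
    have h3 := ht _ hprop (fun n => ψ (a n))
    rw [eval_map] at h3
    have h4 : φ (t.eval a) = 0 := congrArg Subtype.val h3
    exact Ideal.Quotient.eq_zero_iff_mem.1 h4)
  obtain ⟨h1, h2⟩ := hmain
  refine ⟨hfin, le_trans ?_ h2⟩
  exact Nat.card_le_card_of_injective
    (fun r : R => (⟨j r, ⟨r, rfl⟩⟩ : NonUnitalRingHom.range j))
    (fun x y hxy => hj (congrArg Subtype.val hxy))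

/-- Finitely generated rings satisfying `TT` are finite. -/
theorem env_closure {R : Type} [NonUnitalRing R] {p q f : ℕ} {D : Type} [Ring D] (j : R →ₙ+* D)
    (hE : Env p q f D (NonUnitalRingHom.range j)) {X : Set R}
    (hgen : NonUnitalSubring.closure X = ⊤) : Subring.closure (j '' X) = ⊤ := by
  rw [eq_top_iff]
  intro d _
  obtain ⟨n, _, ⟨r, rfl⟩, rfl⟩ := hE.hcase d
  refine Subring.add_mem _ (intCast_mem _ n) ?_
  have key : ∀ r ∈ NonUnitalSubring.closure X, j r ∈ Subring.closure (j '' X) := by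
    intro r hr
    induction hr using NonUnitalSubring.closure_induction with
    | mem x hx => exact Subring.subset_closure ⟨x, hx, rfl⟩
    | zero => rw [map_zero]; exact Subring.zero_mem _
    | add x y _ _ hx hy => rw [map_add]; exact Subring.add_mem _ hx hy
    | neg x _ hx => rw [map_neg]; exact Subring.neg_mem _ hx
    | mul x y _ _ hx hy => rw [map_mul]; exact Subring.mul_mem _ hx hy
  exact key r (by rw [hgen]; trivial)

theorem finite_of_models {R : Type} [NonUnitalRing R] {p q f : ℕ} (hp : p.Prime) (hf : 0 < f)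
    (hq : q = p ^ f) (h : models (TT p q) R) {X : Set R} (hX : X.Finite)
    (hgen : NonUnitalSubring.closure X = ⊤) : Finite R := by
  obtain ⟨D, _, j, hj, hE⟩ := exists_env hp hf hq h
  have := hE.finite_of_fg (hX.image j) (env_closure j hE hgen)
  exact Finite.of_injective j hj

/-- If a ring satisfying `TT` fails an identity, then a small factor fails it. -/
theorem small_factor {R : Type} [NonUnitalRing R] {p q f : ℕ} (hp : p.Prime) (hf : 0 < f)
    (hq : q = p ^ f) (h : models (TT p q) R) (t : RTerm) (ht : ¬ Sat R t) :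
    ∃ (A B : Type) (_ : NonUnitalRing A) (_ : NonUnitalRing B) (φ : A →ₙ+* R) (ψ : A →ₙ+* B),
      Injective φ ∧ Surjective ψ ∧ Finite B ∧ Nat.card B ≤ q ^ 3 ∧ ¬ Sat B t := by
  classical
  have hs' : ∃ a : ℕ → R, t.eval a ≠ 0 := by
    by_contra hcon
    push Not at hcon
    exact ht hcon
  obtain ⟨a, ha⟩ := hs'
  let X : Set R := a '' {n | n ≤ t.bd}
  have hX : X.Finite := (Set.finite_le_nat t.bd).image a
  let A : NonUnitalSubring R := NonUnitalSubring.closure X
  let φ : A →ₙ+* R := NonUnitalSubringClass.subtype A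
  have hφ : Injective φ := Subtype.val_injective
  have hA : models (TT p q) A := fun s hs => sat_of_injective φ hφ (h s hs)
  let a' : ℕ → A := fun n => if hn : n ≤ t.bd then
    ⟨a n, NonUnitalSubring.subset_closure ⟨n, hn, rfl⟩⟩ else 0
  have ha' : φ (t.eval a') = t.eval a := by
    rw [← eval_map]
    apply eval_congr
    intro n hn
    simp only [a', dif_pos hn]
    rfl
  have ha'0 : t.eval a' ≠ 0 := by
    intro h0
    apply ha
    rw [← ha', h0, map_zero]
  obtain ⟨D, _, j, hj, hE⟩ := exists_env hp hf hq hA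
  let Y : Set A := {x | (x : R) ∈ X}
  have hY : Y.Finite := hX.preimage (Subtype.val_injective.injOn)
  have hYgen : NonUnitalSubring.closure Y = ⊤ := by
    rw [eq_top_iff]
    rintro ⟨x, hx⟩ _
    have key : ∀ x (hx : x ∈ A), (⟨x, hx⟩ : A) ∈ NonUnitalSubring.closure Y := by
      intro x hx
      induction hx using NonUnitalSubring.closure_induction with
      | mem x hx => exact NonUnitalSubring.subset_closure hx
      | zero => exact NonUnitalSubring.zero_mem _
      | add x y hx hy hx' hy' => exact NonUnitalSubring.add_mem _ hx' hy'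
      | neg x hx hx' => exact NonUnitalSubring.neg_mem _ hx'
      | mul x y hx hy hx' hy' => exact NonUnitalSubring.mul_mem _ hx' hy'
    exact key x hx
  have hD : Finite D := hE.finite_of_fg (hY.image j) (env_closure j hE hYgen)
  obtain ⟨Q, hQ2, huQ, hfin, hcard⟩ := hE.exists_small_quotient hD (j (t.eval a')) ⟨_, rfl⟩ (by
    intro h0
    exact ha'0 (hj (by rw [h0, map_zero])))
  let ψ : A →ₙ+* (NonUnitalRingHom.range j).map (nu (Ideal.Quotient.mk Q)) :=
    { toFun := fun x => ⟨nu (Ideal.Quotient.mk Q) (j x), ⟨j x, ⟨x, rfl⟩, rfl⟩⟩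
      map_mul' := fun x y => Subtype.ext (by
        show nu (Ideal.Quotient.mk Q) (j (x * y)) = _ * _
        rw [map_mul, map_mul])
      map_zero' := Subtype.ext (by
        show nu (Ideal.Quotient.mk Q) (j 0) = 0
        rw [map_zero, map_zero])
      map_add' := fun x y => Subtype.ext (by
        show nu (Ideal.Quotient.mk Q) (j (x + y)) = _ + _
        rw [map_add, map_add]) }
  have hψ : Surjective ψ := by
    rintro ⟨_, ⟨_, ⟨x, rfl⟩, rfl⟩⟩
    exact ⟨x, rfl⟩
  refine ⟨A, (NonUnitalRingHom.range j).map (nu (Ideal.Quotient.mk Q)), inferInstance,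
    inferInstance, φ, ψ, hφ, hψ, hfin, hcard, ?_⟩
  intro hsat
  apply huQ
  have h3 := hsat (fun n => ψ (a' n))
  rw [eval_map] at h3
  exact Ideal.Quotient.eq_zero_iff_mem.1 (congrArg Subtype.val h3)

/-- Finite bases. -/
theorem exists_basis {p q f : ℕ} (hp : p.Prime) (hf : 0 < f) (hq : q = p ^ f) (I : Set RTerm)
    (hI : ∀ (R : Type) [NonUnitalRing R], models I R → models (TT p q) R) :
    ∃ J : Set RTerm, J.Finite ∧ ∀ (R : Type) [NonUnitalRing R], models I R ↔ models J R := by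
  classical
  obtain ⟨n, K, iK, hK⟩ := exists_small (q ^ 3)
  have hch : ∀ i : Fin n, ∃ t : RTerm, (¬ models I (K i)) → (t ∈ I ∧ ¬ Sat (K i) t) := by
    intro i
    by_cases hi : models I (K i)
    · exact ⟨RTerm.zero, fun h => absurd hi h⟩
    · by_contra hcon
      apply hi
      intro t ht
      by_contra hs
      exact hcon ⟨t, fun _ => ⟨ht, hs⟩⟩
  choose τ hτ using hch
  refine ⟨TT p q ∪ τ '' {i | ¬ models I (K i)}, (TT_finite p q).union (Set.toFinite _), ?_⟩
  intro R _
  constructor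
  · intro h
    rintro t (ht | ⟨i, hi, rfl⟩)
    · exact hI R h t ht
    · exact h _ (hτ i hi).1
  · intro h t ht
    by_contra hs
    have hTT : models (TT p q) R := fun s hs => h s (Or.inl hs)
    obtain ⟨A, B, _, _, φ, ψ, hφ, hψ, hfin, hcard, hB⟩ := small_factor hp hf hq hTT t hs
    obtain ⟨i, ⟨e⟩⟩ := hK B hfin hcard
    by_cases hi : models I (K i)
    · exact hB (sat_of_equiv e.symm (hi t ht))
    · have h1 := h _ (Or.inr ⟨i, hi, rfl⟩)
      exact (hτ i hi).2 (sat_of_equiv e (sat_of_surjective ψ hψ (sat_of_injective φ hφ h1)))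

/-- A class of rings defined by identities which satisfies `TT` is a Cross variety. -/
theorem isCross_of_TT {p q f : ℕ} (hp : p.Prime) (hf : 0 < f) (hq : q = p ^ f) (C : RingClass)
    (hC : IsVariety C) (h : ∀ (R : Type) [NonUnitalRing R], C R → models (TT p q) R) :
    IsCross C := by
  obtain ⟨I, hI⟩ := hC
  refine ⟨⟨I, hI⟩, ?_, ?_, ?_⟩
  · obtain ⟨J, hJ, hJ'⟩ := exists_basis hp hf hq I (fun R _ hR => h R ((hI R).2 hR))
    exact ⟨J, hJ, fun R _ => (hI R).trans (hJ' R)⟩
  · rintro R _ hR ⟨X, hX, hgen⟩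
    exact finite_of_models hp hf hq (h R hR) hX hgen
  · obtain ⟨n, K, iK, hK⟩ := exists_small (q ^ 3)
    refine ⟨n, K, iK, ?_⟩
    intro R _ hR hcrit
    obtain ⟨h1, h2⟩ := critical_card hp hf hq (h R hR) hcrit
    exact hK R h1 h2

/-- Upper triangular `2 × 2` matrices over a finite field satisfy `TT`. -/
theorem models_triangular {K : Type} [Field K] [Finite K] {p q : ℕ} [CharP K p]
    (hq : q = Nat.card K) (S : NonUnitalSubring (Matrix (Fin 2) (Fin 2) K))
    (hS : ∀ m ∈ S, m 1 0 = 0) : models (TT p q) S := by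
  classical
  have hq0 : 0 < q := by rw [hq]; exact Nat.card_pos
  have hinj : Injective (NonUnitalSubringClass.subtype S) := Subtype.val_injective
  rw [models_TT (NonUnitalSubringClass.subtype S) hinj hq0]
  have hrange : ∀ m ∈ NonUnitalRingHom.range (NonUnitalSubringClass.subtype S), m 1 0 = 0 := by
    rintro _ ⟨m, rfl⟩
    exact hS m m.2
  have hmul : ∀ a b : Matrix (Fin 2) (Fin 2) K, a 1 0 = 0 → b 1 0 = 0 →
      (a * b) 0 0 = a 0 0 * b 0 0 ∧ (a * b) 1 0 = 0 ∧ (a * b) 1 1 = a 1 1 * b 1 1 := by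
    intro a b ha hb
    simp only [Matrix.mul_apply, Fin.sum_univ_two, ha, hb, mul_zero, zero_mul, add_zero, zero_add]
    exact ⟨trivial, trivial, trivial⟩
  have hpow : ∀ (a : Matrix (Fin 2) (Fin 2) K), a 1 0 = 0 → ∀ n : ℕ,
      (a ^ n) 0 0 = a 0 0 ^ n ∧ (a ^ n) 1 0 = 0 ∧ (a ^ n) 1 1 = a 1 1 ^ n := by
    intro a ha n
    induction n with
    | zero => simp
    | succ n ih =>
      obtain ⟨h1, h2, h3⟩ := ih
      obtain ⟨h4, h5, h6⟩ := hmul (a ^ n) a h2 ha
      rw [pow_succ, pow_succ, pow_succ, h4, h5, h6, h1, h3]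
      exact ⟨rfl, rfl, rfl⟩
  have hU : ∀ u ∈ U0 q (NonUnitalRingHom.range (NonUnitalSubringClass.subtype S)),
      u 0 0 = 0 ∧ u 1 0 = 0 ∧ u 1 1 = 0 := by
    rintro _ (⟨a, ha, b, hb, rfl⟩ | ⟨a, ha, rfl⟩)
    · have ha' := hrange a ha
      have hb' := hrange b hb
      obtain ⟨h1, h2, h3⟩ := hmul a b ha' hb'
      obtain ⟨h4, h5, h6⟩ := hmul b a hb' ha'
      simp only [Matrix.sub_apply, h1, h2, h3, h4, h5, h6]
      refine ⟨by ring, by ring, by ring⟩
    · have ha' := hrange a ha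
      obtain ⟨h1, h2, h3⟩ := hpow a ha' q
      have : Fintype K := Fintype.ofFinite K
      have hk : ∀ x : K, x ^ q = x := by
        intro x
        rw [hq, Nat.card_eq_fintype_card]
        exact FiniteField.pow_card x
      simp only [Matrix.sub_apply, h1, h2, h3, hk, ha']
      refine ⟨by ring, by ring, by ring⟩
  have hz : ∀ u v : Matrix (Fin 2) (Fin 2) K, (u 0 0 = 0 ∧ u 1 0 = 0 ∧ u 1 1 = 0) →
      (v 1 0 = 0 ∧ v 1 1 = 0) → u * v = 0 := by
    rintro u v ⟨h1, h2, h3⟩ ⟨h5, h6⟩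
    ext i k
    fin_cases i <;> fin_cases k <;>
      simp [Matrix.mul_apply, Fin.sum_univ_two, h1, h2, h3, h5, h6]
  refine ⟨?_, ?_, ?_⟩
  · intro r
    apply Subtype.ext
    show p • (r : Matrix (Fin 2) (Fin 2) K) = 0
    ext i k
    rw [Matrix.smul_apply, nsmul_eq_mul, CharP.cast_eq_zero, zero_mul]
    rfl
  · intro u hu v hv
    exact hz u v (hU u hu) (hU v hv).2
  · intro u hu v hv z hz'
    obtain ⟨h1, h2, h3⟩ := hU v hv
    apply hz u _ (hU u hu)
    have := hrange z hz'
    simp only [Matrix.mul_apply, Fin.sum_univ_two, this, h2, h3, mul_zero, zero_mul, add_zero]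
    exact ⟨trivial, trivial⟩

/-- **The main theorem**: a minimal non-Engel variety of associative rings is a Cross variety; it
is generated by a finite ring of upper triangular `2 × 2` matrices over a finite field. -/
theorem main (C : RingClass) (hC : MinimalNonEngel C) : IsCross C ∧
    ∃ (K : Type) (_ : Field K) (_ : Finite K) (α β : K)
      (R₀ : NonUnitalSubring (Matrix (Fin 2) (Fin 2) K)), α ≠ β ∧ (∀ m ∈ R₀, m 1 0 = 0) ∧
      !![α, 0; 0, β] ∈ R₀ ∧ !![0, 1; 0, 0] ∈ R₀ ∧
      ∀ (R : Type) [NonUnitalRing R], C R ↔ ∀ t : RTerm, Sat R₀ t → Sat R t := by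
  classical
  obtain ⟨hvar, hne, hmin⟩ := hC
  have hcl := hvar.closed
  have hnt : ¬ Tame C := fun h => hne (engel_of_tame hcl h)
  have hex : ∃ (D : Type) (_ : Ring D) (S : NonUnitalSubring D), C S ∧ ∃ y ∈ S, ∃ m ∈ S, Sq y m ∧
      ∀ k : ℕ, comm m y k ≠ 0 := by
    by_contra hcon
    apply hnt
    intro D _ S hS y hy m hm hSq
    by_contra hk
    push Not at hk
    exact hcon ⟨D, _, S, hS, y, hy, m, hm, hSq, hk⟩
  obtain ⟨D, _, S, hS, y, hy, m, hm, hSq, hk⟩ := hex
  obtain ⟨K, _, _, α, β, hαβ, hG⟩ := exists_special hSq hk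
  obtain ⟨G, hG1, hG2, hGy, hGm, hGt⟩ := hG S hy hm
  -- the ring `R₀`
  let π : (D × Matrix (Fin 2) (Fin 2) K) →ₙ+* Matrix (Fin 2) (Fin 2) K :=
    { toFun := Prod.snd
      map_mul' := fun _ _ => rfl
      map_zero' := rfl
      map_add' := fun _ _ => rfl }
  let R₀ : NonUnitalSubring (Matrix (Fin 2) (Fin 2) K) := G.map π
  have hCR₀ : C R₀ := by
    refine hcl.span (U := G) (A := S)
      { toFun := fun g => ⟨g.1.1, hG1 g.1 g.2⟩
        map_mul' := fun _ _ => rfl
        map_zero' := rfl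
        map_add' := fun _ _ => rfl }
      { toFun := fun g => ⟨π g.1, ⟨g.1, g.2, rfl⟩⟩
        map_mul' := fun _ _ => rfl
        map_zero' := rfl
        map_add' := fun _ _ => rfl } ?_ ?_ hS
    · rintro ⟨_, ⟨g, hg, rfl⟩⟩
      exact ⟨⟨g, hg⟩, rfl⟩
    · rintro ⟨g, hg⟩ hg0
      have h1 : g.1 = 0 := congrArg Subtype.val hg0
      exact Subtype.ext (hG2 g hg h1)
  have hR₀t : ∀ x ∈ R₀, x 1 0 = 0 := by
    rintro _ ⟨g, hg, rfl⟩
    exact hGt g hg
  obtain ⟨p, hchar⟩ := CharP.exists K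
  have hft : Fintype K := Fintype.ofFinite K
  obtain ⟨f, hp, hcard⟩ := FiniteField.card K p
  let q : ℕ := p ^ (f : ℕ)
  have hq : q = Nat.card K := by rw [Nat.card_eq_fintype_card, hcard]
  have hTR₀ : models (TT p q) R₀ := models_triangular hq R₀ hR₀t
  let C₀ : RingClass := models {t | Sat R₀ t}
  have hC₀ : IsVariety C₀ := ⟨_, fun R _ => Iff.rfl⟩
  have hsub : Sub C₀ C := by
    obtain ⟨I, hI⟩ := hvar
    intro R _ hR
    rw [hI]
    intro t ht
    exact hR t ((hI R₀).1 hCR₀ t ht)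
  have hR₀C₀ : C₀ R₀ := fun t ht => ht
  have hC₀ne : ¬ IsEngel C₀ := by
    rintro ⟨n, -, hn⟩
    let e12 : R₀ := ⟨!![0, 1; 0, 0], ⟨_, hGm, rfl⟩⟩
    let dd : R₀ := ⟨!![α, 0; 0, β], ⟨_, hGy, rfl⟩⟩
    have h1 := hn R₀ hR₀C₀ e12 dd
    have h2 : ∀ k : ℕ, ((comm e12 dd k : R₀) : Matrix (Fin 2) (Fin 2) K) =
        !![0, (β - α) ^ k; 0, 0] := by
      intro k
      induction k with
      | zero => rw [pow_zero]; rfl
      | succ k ih =>
        have h3 : ((comm e12 dd (k + 1) : R₀) : Matrix (Fin 2) (Fin 2) K) =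
          (comm e12 dd k : R₀) * !![α, 0; 0, β] - !![α, 0; 0, β] * (comm e12 dd k : R₀) := rfl
        rw [h3, ih]
        ext i k
        fin_cases i <;> fin_cases k <;> simp
        ring
    have h3 := congrFun (congrFun (h2 n) 0) 1
    rw [h1] at h3
    have h4 : (β - α) ^ n = 0 := h3.symm
    exact hαβ (sub_eq_zero.1 (eq_zero_of_pow_eq_zero h4)).symm
  have hsub' : Sub C C₀ := by
    by_contra hcon
    exact hC₀ne (hmin C₀ hC₀ hsub hcon)
  exact ⟨isCross_of_TT hp f.pos rfl C hvar (fun R _ hR t ht => hsub' R hR t (hTR₀ t ht)),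
    K, inferInstance, inferInstance, α, β, R₀, hαβ, hR₀t, ⟨_, hGy, rfl⟩, ⟨_, hGm, rfl⟩,
    fun R _ => ⟨fun hR t ht => hsub' R hR t ht, fun hR => hsub R hR⟩⟩

end Pool.Agent.D0H68.Eng
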