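import Mathlib

set_option autoImplicit false

/-!
Varieties of associative (not necessarily unital) rings, Engel varieties, critical rings and Cross
varieties.
-/

namespace Pool.Agent.D0H68.Eng

/-- Terms in the signature `(+, -, 0, ·)` of rings, with variables indexed by `ℕ`. -/
inductive RTerm : Type
  | var : ℕ → RTerm
  | zero : RTerm
  | add : RTerm → RTerm → RTerm
  | neg : RTerm → RTerm
  | mul : RTerm → RTerm → RTerm

/-- The value of a term in a (not necessarily unital) ring. -/
def RTerm.eval {R : Type} [NonUnitalRing R] (a : ℕ → R) : RTerm → R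
  | .var n => a n
  | .zero => 0
  | .add s t => s.eval a + t.eval a
  | .neg s => - s.eval a
  | .mul s t => s.eval a * t.eval a

/-- The ring `R` satisfies the identity `t = 0`. -/
def Sat (R : Type) [NonUnitalRing R] (t : RTerm) : Prop := ∀ a : ℕ → R, t.eval a = 0

/-- A class of associative, not necessarily unital, rings. -/
def RingClass : Type 1 := ∀ (R : Type) [NonUnitalRing R], Prop

/-- The class of the rings which satisfy the identities `t = 0` for `t` in `I`. -/
def models (I : Set RTerm) : RingClass := fun R _ => ∀ t ∈ I, Sat R t

/-- `C` is a variety: it is defined by a set of identities. -/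
def IsVariety (C : RingClass) : Prop :=
  ∃ I : Set RTerm, ∀ (R : Type) [NonUnitalRing R], C R ↔ models I R

/-- The iterated commutator `[x, _n y]`, where `[x, _0 y] = x` and
`[x, _(n+1) y] = [[x, _n y], y]`. -/
def comm {R : Type} [NonUnitalRing R] (x y : R) : ℕ → R
  | 0 => x
  | n + 1 => comm x y n * y - y * comm x y n

/-- The class `C` is Engel: for some `n ≥ 1` all its members satisfy `[x, _n y] = 0`. -/
def IsEngel (C : RingClass) : Prop :=
  ∃ n : ℕ, 1 ≤ n ∧ ∀ (R : Type) [NonUnitalRing R], C R → ∀ x y : R, comm x y n = 0

/-- `C` is a subclass of `C'`. -/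
def Sub (C C' : RingClass) : Prop := ∀ (R : Type) [NonUnitalRing R], C R → C' R

/-- `C` is a minimal non-Engel variety: it is a variety, it is not Engel, and each proper
subvariety is Engel. -/
def MinimalNonEngel (C : RingClass) : Prop :=
  IsVariety C ∧ ¬ IsEngel C ∧
    ∀ C' : RingClass, IsVariety C' → Sub C' C → ¬ Sub C C' → IsEngel C'

/-- `S` is a factor of `R`: a homomorphic image of a subring of `R`. -/
def IsFactor (S R : Type) [NonUnitalRing S] [NonUnitalRing R] : Prop :=
  ∃ (T : NonUnitalSubring R) (f : T →ₙ+* S), Function.Surjective f

/-- The proper factors of `R`: the factors which are not isomorphic to `R`. -/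
def properFactors (R : Type) [NonUnitalRing R] : RingClass :=
  fun S _ => IsFactor S R ∧ IsEmpty (S ≃+* R)

/-- The variety generated by a class of rings: the rings which satisfy all identities that hold in
all members of the class. -/
def varietyOf (X : RingClass) : RingClass :=
  fun R _ => ∀ t : RTerm, (∀ (S : Type) [NonUnitalRing S], X S → Sat S t) → Sat R t

/-- A finite ring is critical if it is not in the variety generated by its proper factors. -/
def IsCritical (R : Type) [NonUnitalRing R] : Prop :=
  Finite R ∧ ¬ varietyOf (properFactors R) R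

/-- `C` is finitely based: it is defined by finitely many identities. -/
def FinitelyBased (C : RingClass) : Prop :=
  ∃ I : Set RTerm, I.Finite ∧ ∀ (R : Type) [NonUnitalRing R], C R ↔ models I R

/-- `C` is locally finite: every finitely generated member is finite. -/
def LocallyFinite (C : RingClass) : Prop :=
  ∀ (R : Type) [NonUnitalRing R], C R →
    (∃ X : Set R, X.Finite ∧ NonUnitalSubring.closure X = ⊤) → Finite R

/-- `C` contains only finitely many critical rings up to isomorphism. -/
def FinitelyManyCritical (C : RingClass) : Prop :=
  ∃ (n : ℕ) (K : Fin n → Type) (_ : ∀ i, NonUnitalRing (K i)),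
    ∀ (R : Type) [NonUnitalRing R], C R → IsCritical R → ∃ i, Nonempty (R ≃+* K i)

/-- `C` is a Cross variety. -/
def IsCross (C : RingClass) : Prop :=
  IsVariety C ∧ FinitelyBased C ∧ LocallyFinite C ∧ FinitelyManyCritical C

end Pool.Agent.D0H68.Eng
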