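import Pool.Agent.D0H68.Eng.Main

set_option autoImplicit false

namespace Pool.Agent.D0H68.Eng

open Function

/-- The commutators and the elements `a ^ q - a`. -/
def U0 {D : Type} [Ring D] (q : ℕ) (S : NonUnitalSubring D) : Set D :=
  {w | (∃ a ∈ S, ∃ b ∈ S, w = a * b - b * a) ∨ ∃ a ∈ S, w = a ^ q - a}

/-- A unital ring `D` with an ideal `S` satisfying the identities of upper triangular matrices. -/
structure Env (p q f : ℕ) (D : Type) [Ring D] (S : NonUnitalSubring D) : Prop where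
  prime : p.Prime
  fpos : 0 < f
  qpf : q = p ^ f
  hp : (p : D) = 0
  hl : ∀ d : D, ∀ s ∈ S, d * s ∈ S
  hr : ∀ d : D, ∀ s ∈ S, s * d ∈ S
  hcase : ∀ d : D, ∃ (n : ℤ) (s : D), s ∈ S ∧ d = n + s
  uv : ∀ u ∈ U0 q S, ∀ v ∈ U0 q S, u * v = 0
  uzv : ∀ u ∈ U0 q S, ∀ v ∈ U0 q S, ∀ z ∈ S, u * (z * v) = 0

theorem frob_add {Q : Type} [CommRing Q] {p q f : ℕ} (hp : p.Prime) (hq : q = p ^ f)
    (h0 : (p : Q) = 0) (x y : Q) : (x + y) ^ q = x ^ q + y ^ q := by
  rcases subsingleton_or_nontrivial Q with hs | hn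
  · exact Subsingleton.elim _ _
  have hpf : Fact p.Prime := ⟨hp⟩
  have hchar : CharP Q p := (CharP.charP_iff_prime_eq_zero hp).2 h0
  subst hq
  exact add_pow_char_pow x y p f

theorem frob_int {Q : Type} [CommRing Q] {p q f : ℕ} (hp : p.Prime) (hq : q = p ^ f)
    (h0 : (p : Q) = 0) (m : ℤ) (x : Q) (hx : x ^ q = x) : ((m : Q) + x) ^ q = m + x := by
  rcases subsingleton_or_nontrivial Q with hs | hn
  · exact Subsingleton.elim _ _
  have hpf : Fact p.Prime := ⟨hp⟩
  have hchar : CharP Q p := (CharP.charP_iff_prime_eq_zero hp).2 h0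
  rw [frob_add hp hq h0, hx]
  congr 1
  rw [← Int.cast_pow, ← sub_eq_zero, ← Int.cast_sub, CharP.intCast_eq_zero_iff Q p]
  have := ZMod.pow_card_pow (p := p) (n := f) (m : ZMod p)
  rw [← hq, ← sub_eq_zero, ← Int.cast_pow, ← Int.cast_sub,
    ZMod.intCast_zmod_eq_zero_iff_dvd] at this
  exact this

namespace Env

variable {p q f : ℕ} {D : Type} [Ring D] {S : NonUnitalSubring D}

/-- the ideal generated by `U0` -/
def NN (q : ℕ) {D : Type} [Ring D] (S : NonUnitalSubring D) : Ideal D :=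
  Ideal.span {w | ∃ u ∈ U0 q S, ∃ b : D, w = u * b}

instance NN_twoSided : (NN q S).IsTwoSided := by
  refine ⟨fun {u} b hu => ?_⟩
  unfold NN at hu
  induction hu using Submodule.span_induction with
  | mem x hx =>
    obtain ⟨u, hu, r, rfl⟩ := hx
    exact Ideal.subset_span ⟨u, hu, r * b, mul_assoc _ _ _⟩
  | zero => rw [zero_mul]; exact Ideal.zero_mem _
  | add x y _ _ hx hy => rw [add_mul]; exact Ideal.add_mem _ hx hy
  | smul c x _ hx => rw [smul_eq_mul, mul_assoc]; exact Ideal.mul_mem_left _ _ hx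

theorem U0_sub (hq : 0 < q) {u : D} (hu : u ∈ U0 q S) : u ∈ S := by
  rcases hu with ⟨a, ha, b, hb, rfl⟩ | ⟨a, ha, rfl⟩
  · exact S.sub_mem (S.mul_mem ha hb) (S.mul_mem hb ha)
  · refine S.sub_mem ?_ ha
    obtain ⟨k, rfl⟩ : ∃ k, q = k + 1 := ⟨q - 1, by omega⟩
    clear hq
    induction k with
    | zero => simpa using ha
    | succ k ih => rw [pow_succ]; exact S.mul_mem ih ha

theorem qpos (h : Env p q f D S) : 0 < q := by rw [h.qpf]; exact pow_pos h.prime.pos _

theorem two_le (h : Env p q f D S) : 2 ≤ q := by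
  rw [h.qpf]
  calc 2 ≤ p := h.prime.two_le
    _ = p ^ 1 := (pow_one p).symm
    _ ≤ p ^ f := Nat.pow_le_pow_right h.prime.pos h.fpos

theorem NN_sub (h : Env p q f D S) {u : D} (hu : u ∈ NN q S) : u ∈ S := by
  unfold NN at hu
  induction hu using Submodule.span_induction with
  | mem x hx =>
    obtain ⟨u, hu, r, rfl⟩ := hx
    exact h.hr _ _ (U0_sub h.qpos hu)
  | zero => exact S.zero_mem
  | add x y _ _ hx hy => exact S.add_mem hx hy
  | smul c x _ hx => exact h.hl _ _ hx

theorem U0_mul (h : Env p q f D S) {u v : D} (hu : u ∈ U0 q S) (hv : v ∈ U0 q S) (z : D) :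
    u * z * v = 0 := by
  obtain ⟨n, s, hs, rfl⟩ := h.hcase z
  rw [mul_assoc, add_mul, mul_add, h.uzv u hu v hv s hs, add_zero, ← mul_assoc,
    ← (Int.cast_commute n u).eq, mul_assoc, h.uv u hu v hv, mul_zero]

theorem NN_mul (h : Env p q f D S) {u v : D} (hu : u ∈ NN q S) (hv : v ∈ NN q S) : u * v = 0 := by
  have h1 : ∀ w ∈ U0 q S, ∀ z, u * z * w = 0 := by
    intro w hw
    unfold NN at hu
    induction hu using Submodule.span_induction with
    | mem x hx =>
      obtain ⟨u, hu, r, rfl⟩ := hx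
      intro z
      rw [mul_assoc u]
      exact h.U0_mul hu hw _
    | zero => intro z; rw [zero_mul, zero_mul]
    | add x y _ _ hx hy => intro z; rw [add_mul, add_mul, hx, hy, add_zero]
    | smul c x _ hx =>
      intro z; rw [smul_eq_mul, mul_assoc, mul_assoc, ← mul_assoc x, hx, mul_zero]
  have h2 : ∀ z, u * z * v = 0 := by
    unfold NN at hv
    induction hv using Submodule.span_induction with
    | mem x hx =>
      obtain ⟨w, hw, r, rfl⟩ := hx
      intro z
      rw [← mul_assoc, h1 w hw, zero_mul]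
    | zero => intro z; rw [mul_zero]
    | add x y _ _ hx hy => intro z; rw [mul_add, hx, hy, add_zero]
    | smul c x _ hx => intro z; rw [smul_eq_mul, ← mul_assoc, mul_assoc u, hx]
  simpa using h2 1

/-- the quotient is commutative -/
theorem comm_mem (h : Env p q f D S) (a b : D) : a * b - b * a ∈ NN q S := by
  obtain ⟨m, s, hs, rfl⟩ := h.hcase a
  obtain ⟨n, t, ht, rfl⟩ := h.hcase b
  have e : (m + s) * (n + t) - (n + t) * (m + s) = (s * t - t * s) * 1 := by
    rw [mul_one, add_mul, mul_add, mul_add, add_mul, mul_add, mul_add,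
      (Int.cast_commute m t).eq, (Int.cast_commute n s).eq, (Int.cast_commute m (n : D)).eq]
    abel
  rw [e]
  exact Ideal.subset_span ⟨_, Or.inl ⟨s, hs, t, ht, rfl⟩, 1, rfl⟩

/-- the quotient as a commutative ring -/
@[reducible] noncomputable def commQ (h : Env p q f D S) : CommRing (D ⧸ NN q S) :=
  { (inferInstance : Ring (D ⧸ NN q S)) with
    mul_comm := fun a b => by
      obtain ⟨a, rfl⟩ := Ideal.Quotient.mk_surjective a
      obtain ⟨b, rfl⟩ := Ideal.Quotient.mk_surjective b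
      rw [← map_mul, ← map_mul]
      exact Ideal.Quotient.eq.2 (h.comm_mem a b) }

theorem pow_mem (h : Env p q f D S) (a : D) : a ^ q - a ∈ NN q S := by
  let _ := h.commQ
  have hp0 : (p : D ⧸ NN q S) = 0 := by
    rw [← map_natCast (Ideal.Quotient.mk (NN q S)), h.hp, map_zero]
  obtain ⟨m, s, hs, rfl⟩ := h.hcase a
  have h1 : (Ideal.Quotient.mk (NN q S) s) ^ q = Ideal.Quotient.mk (NN q S) s := by
    rw [← map_pow]
    exact Ideal.Quotient.eq.2 (Ideal.subset_span ⟨_, Or.inr ⟨s, hs, rfl⟩, 1, (mul_one _).symm⟩)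
  apply Ideal.Quotient.eq.1
  rw [map_pow, map_add, map_intCast]
  exact frob_int h.prime h.qpf hp0 m _ h1

end Env

end Pool.Agent.D0H68.Eng
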