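import Pool.Agent.D0H68.Eng.Special

set_option autoImplicit false

namespace Pool.Agent.D0H68.Eng

open Function

/-- the free unital ring on two generators -/
abbrev Fr : Type := FreeAlgebra ℤ Bool
/-- the first generator -/
abbrev gX : Fr := FreeAlgebra.ι ℤ true
/-- the second generator -/
abbrev gY : Fr := FreeAlgebra.ι ℤ false

/-- evaluation -/
def ev {D : Type} [Ring D] (x y : D) : Fr →ₐ[ℤ] D :=
  FreeAlgebra.lift ℤ (fun b => bif b then x else y)

@[simp] theorem ev_X {D : Type} [Ring D] (x y : D) : ev x y gX = x := by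
  simp [ev, gX]

@[simp] theorem ev_Y {D : Type} [Ring D] (x y : D) : ev x y gY = y := by
  simp [ev, gY]

/-- the left ideal generated by the elements `X B X C` -/
def J2 : Ideal Fr := Ideal.span {g | ∃ B C : Fr, g = gX * B * gX * C}

theorem J2_mul {a : Fr} (ha : a ∈ J2) (b : Fr) : a * b ∈ J2 := by
  unfold J2 at ha
  induction ha using Submodule.span_induction with
  | mem x hx =>
    obtain ⟨B, C, rfl⟩ := hx
    exact Ideal.subset_span ⟨B, C * b, by rw [mul_assoc]⟩
  | zero => rw [zero_mul]; exact Ideal.zero_mem _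
  | add x y _ _ hx hy => rw [add_mul]; exact Ideal.add_mem _ hx hy
  | smul c x _ hx => rw [smul_eq_mul, mul_assoc]; exact Ideal.mul_mem_left _ _ hx

instance : J2.IsTwoSided := ⟨fun b ha => J2_mul ha b⟩

theorem sup_twoSided {R : Type} [Ring R] (I J : Ideal R) [I.IsTwoSided] [J.IsTwoSided] :
    (I ⊔ J).IsTwoSided := by
  refine ⟨fun {a} b ha => ?_⟩
  obtain ⟨u, hu, v, hv, rfl⟩ := Submodule.mem_sup.1 ha
  rw [add_mul]
  exact Submodule.add_mem_sup (I.mul_mem_right b hu) (J.mul_mem_right b hv)

/-- A class of rings is tame if it contains no finite non-Engel square-zero extension; this is the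
form in which it is used. -/
def Tame (C : RingClass) : Prop :=
  ∀ (D : Type) [Ring D] (S : NonUnitalSubring D), C S → ∀ y ∈ S, ∀ m ∈ S, Sq y m →
    ∃ k : ℕ, comm m y k = 0

/-- ring homomorphisms as non-unital homomorphisms -/
def nu {R S : Type} [Ring R] [Ring S] (f : R →+* S) : R →ₙ+* S :=
  { toFun := f, map_mul' := map_mul f, map_zero' := map_zero f, map_add' := map_add f }

@[simp] theorem nu_apply {R S : Type} [Ring R] [Ring S] (f : R →+* S) (r : R) : nu f r = f r := rfl

theorem comm_ringHom {R S : Type} [Ring R] [Ring S] (f : R →+* S) (x y : R) (n : ℕ) :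
    f (comm x y n) = comm (f x) (f y) n := comm_map (nu f) x y n

/-- In a tame variety, `[x, _κ y]` is equal to a polynomial in which `x` occurs at least twice. -/
theorem exists_form {C : RingClass} (hC : Closed C) (ht : Tame C) :
    ∃ (κ : ℕ) (g : Fr), g ∈ J2 ∧ ∀ (D : Type) [Ring D] (S : NonUnitalSubring D), C S →
      ∀ x ∈ S, ∀ y ∈ S, comm x y κ = ev x y g := by
  classical
  let P : Fr → Prop := fun g => ∃ (D : Type) (_ : Ring D) (S : NonUnitalSubring D) (x y : D),
    C S ∧ x ∈ S ∧ y ∈ S ∧ ev x y g ≠ 0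
  let ι : Type := {g : Fr // P g}
  choose D iD S x y hS hx hy hg using fun i : ι => i.2
  let Ds : Type := ∀ i, D i
  let Ss : NonUnitalSubring Ds :=
    { carrier := {f | ∀ i, f i ∈ S i}
      zero_mem' := fun i => (S i).zero_mem
      add_mem' := fun ha hb i => (S i).add_mem (ha i) (hb i)
      neg_mem' := fun ha i => (S i).neg_mem (ha i)
      mul_mem' := fun ha hb i => (S i).mul_mem (ha i) (hb i) }
  have hSs : C Ss := by
    refine hC.of_injective (A := ∀ i, S i)
      { toFun := fun f i => ⟨f.1 i, f.2 i⟩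
        map_mul' := fun a b => rfl
        map_zero' := rfl
        map_add' := fun a b => rfl } ?_ (hC.pi _ hS)
    intro a b hab
    apply Subtype.ext
    funext i
    exact congrArg Subtype.val (congrFun hab i)
  let xs : Ds := x
  let ys : Ds := y
  let e : Fr →+* Ds := (ev xs ys : Fr →+* Ds)
  have he : ∀ g i, e g i = ev (x i) (y i) g := by
    intro g i
    have h1 : ((Pi.evalAlgHom ℤ D i).comp (ev xs ys)) = ev (x i) (y i) := by
      apply FreeAlgebra.hom_ext
      funext b
      cases b
      · have h2 : (ev xs ys) gY = ys := ev_Y _ _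
        have h3 : (ev (x i) (y i)) gY = y i := ev_Y _ _
        show (ev xs ys) gY i = (ev (x i) (y i)) gY
        rw [h2, h3]
      · have h2 : (ev xs ys) gX = xs := ev_X _ _
        have h3 : (ev (x i) (y i)) gX = x i := ev_X _ _
        show (ev xs ys) gX i = (ev (x i) (y i)) gX
        rw [h2, h3]
    exact DFunLike.congr_fun h1 g
  let K : Ideal Fr := J2 ⊔ RingHom.ker e
  have hK2 : K.IsTwoSided := sup_twoSided _ _
  let SF : NonUnitalSubring Fr := Ss.comap (nu e)
  let π : Fr →+* Fr ⧸ K := Ideal.Quotient.mk K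
  let Sb : NonUnitalSubring (Fr ⧸ K) := SF.map (nu π)
  have hSb : C Sb := by
    refine hC.span (U := SF) (A := Ss) (B := Sb)
      { toFun := fun f => ⟨e f.1, f.2⟩
        map_mul' := fun a b => by ext1; exact map_mul e _ _
        map_zero' := by ext1; exact map_zero e
        map_add' := fun a b => by ext1; exact map_add e _ _ }
      { toFun := fun f => ⟨π f.1, ⟨f.1, f.2, rfl⟩⟩
        map_mul' := fun a b => by ext1; exact map_mul π _ _
        map_zero' := by ext1; exact map_zero π
        map_add' := fun a b => by ext1; exact map_add π _ _ } ?_ ?_ hSs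
    · rintro ⟨_, ⟨f, hf, rfl⟩⟩
      exact ⟨⟨f, hf⟩, rfl⟩
    · intro u hu
      have h1 : e u.1 = 0 := congrArg Subtype.val hu
      apply Subtype.ext
      show π u.1 = 0
      exact Ideal.Quotient.eq_zero_iff_mem.2 (Submodule.mem_sup_right h1)
  have hXF : gX ∈ SF := by
    show e gX ∈ Ss
    intro i
    rw [he, ev_X]
    exact hx i
  have hYF : gY ∈ SF := by
    show e gY ∈ Ss
    intro i
    rw [he, ev_Y]
    exact hy i
  obtain ⟨κ, hκ⟩ := ht (Fr ⧸ K) Sb hSb (π gY) ⟨gY, hYF, rfl⟩ (π gX) ⟨gX, hXF, rfl⟩ (by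
    intro k
    rw [← map_pow, ← map_mul, ← map_mul]
    exact Ideal.Quotient.eq_zero_iff_mem.2
      (Submodule.mem_sup_left (Ideal.subset_span ⟨gY ^ k, 1, by rw [mul_one]⟩)))
  rw [← comm_ringHom, Ideal.Quotient.eq_zero_iff_mem] at hκ
  obtain ⟨g, hg1, h, hh, hgh⟩ := Submodule.mem_sup.1 hκ
  refine ⟨κ, g, hg1, ?_⟩
  intro D' _ S' hS' x' hx' y' hy'
  by_contra hcon
  have hP : P (comm gX gY κ - g) := by
    refine ⟨D', inferInstance, S', x', y', hS', hx', hy', ?_⟩
    rw [map_sub]
    have h2 : ev x' y' (comm gX gY κ) = comm x' y' κ := by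
      have := comm_ringHom (ev x' y' : Fr →+* D') gX gY κ
      simpa using this
    rw [h2]
    exact sub_ne_zero.2 hcon
  have h3 := hg ⟨_, hP⟩
  rw [← he] at h3
  apply h3
  have h4 : comm gX gY κ - g = h := by rw [← hgh, add_sub_cancel_left]
  have h5 : e (comm gX gY κ - g) = 0 := by rw [h4]; exact hh
  exact congrFun h5 _

end Pool.Agent.D0H68.Eng
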