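import Pool.Agent.D0H68.Eng.Env

set_option autoImplicit false

namespace Pool.Agent.D0H68.Eng

open Function

/-- In a ring of positive characteristic finite sets generate finite additive subgroups. -/
theorem finite_closure {D : Type} [Ring D] {p : ℕ} (hp : 0 < p) (h0 : (p : D) = 0) {X : Set D}
    (hX : X.Finite) : Finite (AddSubgroup.closure X) := by
  have h1 : AddGroup.FG (AddSubgroup.closure X) := by
    have := hX.to_subtype
    exact AddGroup.closure_finite_fg _
  apply AddCommGroup.finite_of_fg_isAddTorsion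
  intro g
  rw [isOfFinAddOrder_iff_nsmul_eq_zero]
  refine ⟨p, hp, ?_⟩
  apply Subtype.ext
  show p • (g : D) = 0
  rw [nsmul_eq_mul, h0, zero_mul]

namespace Env

variable {p q f : ℕ} {D : Type} [Ring D] {S : NonUnitalSubring D}

/-- the quotient by `NN` is finite if the ring is finitely generated -/
theorem finite_quot (h : Env p q f D S) {X : Set D} (hX : X.Finite)
    (hgen : Subring.closure X = ⊤) : Finite (D ⧸ NN q S) := by
  classical
  let iC := h.commQ
  have hpf : Fact p.Prime := ⟨h.prime⟩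
  have hp0 : (p : D ⧸ NN q S) = 0 := by
    rw [← map_natCast (Ideal.Quotient.mk (NN q S)), h.hp, map_zero]
  rcases subsingleton_or_nontrivial (D ⧸ NN q S) with hs | hn
  · infer_instance
  have hchar : CharP (D ⧸ NN q S) p := (CharP.charP_iff_prime_eq_zero h.prime).2 hp0
  let _ : Algebra (ZMod p) (D ⧸ NN q S) := ZMod.algebra _ p
  let Xb : Set (D ⧸ NN q S) := Ideal.Quotient.mk (NN q S) '' X
  have hXb : Xb.Finite := hX.image _
  have hint : ∀ x ∈ Xb, IsIntegral (ZMod p) x := by
    rintro _ ⟨x, -, rfl⟩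
    refine ⟨Polynomial.X ^ q - Polynomial.X, ?_, ?_⟩
    · apply Polynomial.monic_X_pow_sub
      rw [Polynomial.degree_X]
      have := h.two_le
      exact_mod_cast (by omega : 1 < q)
    · rw [Polynomial.eval₂_sub, Polynomial.eval₂_pow, Polynomial.eval₂_X, ← map_pow, sub_eq_zero]
      exact Ideal.Quotient.eq.2 (h.pow_mem x)
  have hfg := fg_adjoin_of_finite hXb hint
  have htop : Algebra.adjoin (ZMod p) Xb = ⊤ := by
    rw [eq_top_iff]
    rintro x -
    obtain ⟨x, rfl⟩ := Ideal.Quotient.mk_surjective x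
    have hx : x ∈ Subring.closure X := by rw [hgen]; trivial
    induction hx using Subring.closure_induction with
    | mem x hx => exact Algebra.subset_adjoin ⟨x, hx, rfl⟩
    | zero => rw [map_zero]; exact Subalgebra.zero_mem _
    | one => rw [map_one]; exact Subalgebra.one_mem _
    | add a b _ _ ha hb => rw [map_add]; exact Subalgebra.add_mem _ ha hb
    | neg a _ ha => rw [map_neg]; exact Subalgebra.neg_mem _ ha
    | mul a b _ _ ha hb => rw [map_mul]; exact Subalgebra.mul_mem _ ha hb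
  rw [htop, Algebra.top_toSubmodule] at hfg
  have : Module.Finite (ZMod p) (D ⧸ NN q S) := ⟨hfg⟩
  exact Module.finite_of_finite (ZMod p)

/-- **Local finiteness.** -/
theorem finite_of_fg (h : Env p q f D S) {X : Set D} (hX : X.Finite)
    (hgen : Subring.closure X = ⊤) : Finite D := by
  classical
  have hQ := h.finite_quot hX hgen
  let π := Ideal.Quotient.mk (NN q S)
  choose rep hrep using (Ideal.Quotient.mk_surjective : Surjective π)
  let T0 : Set D := Set.range rep ∪ X ∪ {1}
  have hT0 : T0.Finite := ((Set.finite_range rep).union hX).union (Set.finite_singleton 1)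
  let T : AddSubgroup D := AddSubgroup.closure T0
  have hTfin : Finite T := finite_closure h.prime.pos h.hp hT0
  have hTX : ∀ x ∈ X, x ∈ T := fun x hx => AddSubgroup.subset_closure (Or.inl (Or.inr hx))
  have hT1 : (1 : D) ∈ T := AddSubgroup.subset_closure (Or.inr rfl)
  have hTrep : ∀ d : D, ∃ t ∈ T, ∃ n ∈ NN q S, d = t + n := by
    intro d
    refine ⟨rep (π d), AddSubgroup.subset_closure (Or.inl (Or.inl ⟨_, rfl⟩)), d - rep (π d), ?_,
      by rw [add_sub_cancel]⟩
    exact Ideal.Quotient.eq.1 (hrep (π d)).symm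
  choose tp htp nn hnn htn using fun (a b : T) => hTrep ((a : D) * (b : D))
  let N0s : Set D := Set.range (fun z : (T × T) × (T × T) => (z.1.1 : D) * nn z.2.1 z.2.2 * z.1.2)
  have hN0s : N0s.Finite := Set.finite_range _
  let N0 : AddSubgroup D := AddSubgroup.closure N0s
  have hN0fin : Finite N0 := finite_closure h.prime.pos h.hp hN0s
  have hN0N : ∀ m ∈ N0, m ∈ NN q S := by
    intro m hm
    induction hm using AddSubgroup.closure_induction with
    | mem x hx =>
      obtain ⟨z, rfl⟩ := hx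
      exact (NN q S).mul_mem_right _ ((NN q S).mul_mem_left _ (hnn _ _))
    | zero => exact (NN q S).zero_mem
    | add a b _ _ ha hb => exact (NN q S).add_mem ha hb
    | neg a _ ha => exact (NN q S).neg_mem ha
  have hTN0 : ∀ t ∈ T, ∀ m ∈ N0, t * m ∈ N0 := by
    intro t ht m hm
    induction hm using AddSubgroup.closure_induction with
    | mem x hx =>
      obtain ⟨⟨⟨a, b⟩, c, d⟩, rfl⟩ := hx
      have e : t * ((a : D) * nn c d * b) = tp ⟨t, ht⟩ a * nn c d * b := by
        rw [mul_assoc, ← mul_assoc t]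
        have h1 := htn ⟨t, ht⟩ a
        simp only at h1
        rw [h1, add_mul, ← mul_assoc (nn ⟨t, ht⟩ a), h.NN_mul (hnn _ _) (hnn _ _), zero_mul,
          add_zero, mul_assoc]
      simp only
      rw [e]
      exact AddSubgroup.subset_closure ⟨((⟨tp ⟨t, ht⟩ a, htp _ _⟩, b), (c, d)), rfl⟩
    | zero => rw [mul_zero]; exact N0.zero_mem
    | add a b _ _ ha hb => rw [mul_add]; exact N0.add_mem ha hb
    | neg a _ ha => rw [mul_neg]; exact N0.neg_mem ha
  have hN0T : ∀ t ∈ T, ∀ m ∈ N0, m * t ∈ N0 := by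
    intro t ht m hm
    induction hm using AddSubgroup.closure_induction with
    | mem x hx =>
      obtain ⟨⟨⟨a, b⟩, c, d⟩, rfl⟩ := hx
      have e : (a : D) * nn c d * b * t = a * nn c d * tp b ⟨t, ht⟩ := by
        rw [mul_assoc]
        have h1 := htn b ⟨t, ht⟩
        simp only at h1
        rw [h1, mul_add, mul_assoc _ _ (nn b ⟨t, ht⟩), h.NN_mul (hnn _ _) (hnn _ _), mul_zero,
          add_zero]
      simp only
      rw [e]
      exact AddSubgroup.subset_closure ⟨((a, ⟨tp b ⟨t, ht⟩, htp _ _⟩), (c, d)), rfl⟩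
    | zero => rw [zero_mul]; exact N0.zero_mem
    | add a b _ _ ha hb => rw [add_mul]; exact N0.add_mem ha hb
    | neg a _ ha => rw [neg_mul]; exact N0.neg_mem ha
  have hprod : ∀ a ∈ T, ∀ b ∈ T, ∃ t ∈ T, ∃ m ∈ N0, a * b = t + m := by
    intro a ha b hb
    refine ⟨tp ⟨a, ha⟩ ⟨b, hb⟩, htp _ _, nn ⟨a, ha⟩ ⟨b, hb⟩, ?_, htn ⟨a, ha⟩ ⟨b, hb⟩⟩
    exact AddSubgroup.subset_closure ⟨((⟨1, hT1⟩, ⟨1, hT1⟩), (⟨a, ha⟩, ⟨b, hb⟩)), by simp⟩
  let E : Subring D :=
    { carrier := {d | ∃ t ∈ T, ∃ m ∈ N0, d = t + m}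
      zero_mem' := ⟨0, T.zero_mem, 0, N0.zero_mem, by simp⟩
      one_mem' := ⟨1, hT1, 0, N0.zero_mem, by simp⟩
      add_mem' := by
        rintro _ _ ⟨t, ht, m, hm, rfl⟩ ⟨t', ht', m', hm', rfl⟩
        exact ⟨t + t', T.add_mem ht ht', m + m', N0.add_mem hm hm', by abel⟩
      neg_mem' := by
        rintro _ ⟨t, ht, m, hm, rfl⟩
        exact ⟨-t, T.neg_mem ht, -m, N0.neg_mem hm, by abel⟩
      mul_mem' := by
        rintro _ _ ⟨t, ht, m, hm, rfl⟩ ⟨t', ht', m', hm', rfl⟩
        obtain ⟨s, hs, n, hn, hsn⟩ := hprod t ht t' ht'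
        refine ⟨s, hs, n + (t * m' + m * t'), N0.add_mem hn (N0.add_mem (hTN0 t ht m' hm')
          (hN0T t' ht' m hm)), ?_⟩
        rw [add_mul, mul_add, mul_add, hsn, h.NN_mul (hN0N m hm) (hN0N m' hm'), add_zero]
        abel }
  have hE : E = ⊤ := by
    rw [eq_top_iff, ← hgen, Subring.closure_le]
    intro x hx
    exact ⟨x, hTX x hx, 0, N0.zero_mem, by simp⟩
  have hfin : (Set.univ : Set D).Finite := by
    have h1 : (Set.image2 (fun a b : D => a + b) (T : Set D) (N0 : Set D)).Finite :=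
      Set.Finite.image2 _ (Set.toFinite _) (Set.toFinite _)
    refine h1.subset ?_
    rintro d -
    have hd : d ∈ E := by rw [hE]; trivial
    obtain ⟨t, ht, m, hm, rfl⟩ := hd
    exact ⟨t, ht, m, hm, rfl⟩
  exact Set.finite_univ_iff.1 hfin

end Env

end Pool.Agent.D0H68.Eng
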