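import Pool.Agent.D0H68.Eng.Central

set_option autoImplicit false

namespace Pool.Agent.D0H68.Eng

open Function

/-- the two-sided ideal generated by `a` -/
def gen {D : Type} [Ring D] (a : D) : Ideal D := Ideal.span {u | ∃ r, u = a * r}

theorem gen_twoSided {D : Type} [Ring D] (a : D) : (gen a).IsTwoSided := by
  refine ⟨fun {u} b hu => ?_⟩
  unfold gen at hu
  induction hu using Submodule.span_induction with
  | mem x hx =>
    obtain ⟨r, rfl⟩ := hx
    exact Ideal.subset_span ⟨r * b, mul_assoc _ _ _⟩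
  | zero => rw [zero_mul]; exact Ideal.zero_mem _
  | add x y _ _ hx hy => rw [add_mul]; exact Ideal.add_mem _ hx hy
  | smul c x _ hx => rw [smul_eq_mul, mul_assoc]; exact Ideal.mul_mem_left _ _ hx

theorem mem_gen {D : Type} [Ring D] (a : D) : a ∈ gen a :=
  Ideal.subset_span ⟨1, (mul_one a).symm⟩

theorem gen_mul_gen {D : Type} [Ring D] {a b : D} (h : ∀ r, a * r * b = 0) {u v : D}
    (hu : u ∈ gen a) (hv : v ∈ gen b) : ∀ r, u * r * v = 0 := by
  have h1 : ∀ r, u * r * b = 0 := by
    unfold gen at hu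
    induction hu using Submodule.span_induction with
    | mem x hx =>
      obtain ⟨t, rfl⟩ := hx
      intro r
      rw [mul_assoc a, h]
    | zero => intro r; rw [zero_mul, zero_mul]
    | add x y _ _ hx hy => intro r; rw [add_mul, add_mul, hx, hy, add_zero]
    | smul c x _ hx => intro r; rw [smul_eq_mul, mul_assoc, mul_assoc, ← mul_assoc x, hx, mul_zero]
  unfold gen at hv
  induction hv using Submodule.span_induction with
  | mem x hx =>
    obtain ⟨t, rfl⟩ := hx
    intro r
    rw [← mul_assoc, h1, zero_mul]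
  | zero => intro r; rw [mul_zero]
  | add x y _ _ hx hy => intro r; rw [mul_add, hx, hy, add_zero]
  | smul c x _ hx => intro r; rw [smul_eq_mul, ← mul_assoc, mul_assoc u, hx]

theorem comm_of_annih {D : Type} [Ring D] {k s : D} (h : k * s = 0) (n : ℕ) :
    comm k s n = (-1) ^ n * (s ^ n * k) := by
  induction n with
  | zero => simp [comm]
  | succ n ih =>
    have h1 : comm k s n * s = 0 := by rw [ih, mul_assoc, mul_assoc, h, mul_zero, mul_zero]
    rw [comm, h1, ih, zero_sub, pow_succ' s, pow_succ' (-1 : D)]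
    have h2 : s * ((-1 : D) ^ n * (s ^ n * k)) = (-1) ^ n * (s * s ^ n * k) := by
      rw [← mul_assoc, ← ((Commute.neg_one_left s).pow_left n).eq, mul_assoc, ← mul_assoc s]
    rw [h2, neg_one_mul, neg_mul]

/-- The core: a ring `D` with a two-sided ideal `S` in a tame variety such that all nonzero ideals
contain some `[x, _n y]`. -/
theorem core {C : RingClass} (κ : ℕ) (g : Fr) (hg : g ∈ J2)
    (hform : ∀ (D : Type) [Ring D] (S : NonUnitalSubring D), C S →
      ∀ x ∈ S, ∀ y ∈ S, comm x y κ = ev x y g)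
    (D : Type) [Ring D] (S : NonUnitalSubring D) (hS : C S)
    (hl : ∀ d : D, ∀ s ∈ S, d * s ∈ S) (hr : ∀ d : D, ∀ s ∈ S, s * d ∈ S)
    (x y : D) (hx : x ∈ S) (hy : y ∈ S)
    (hmax : ∀ Q : Ideal D, Q.IsTwoSided → Q ≠ ⊥ → ∃ n, comm x y n ∈ Q) :
    ∃ n, comm x y n = 0 := by
  by_contra hne
  push Not at hne
  have htame : ∀ s ∈ S, ∀ m ∈ S, Sq s m → comm m s κ = 0 := by
    intro s hs m hm hsq
    rw [hform D S hS m hm s hs]
    exact ev_J2_sq hg hsq
  have hcommS : ∀ n, comm x y n ∈ S := by
    intro n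
    induction n with
    | zero => exact hx
    | succ n ih => exact S.sub_mem (S.mul_mem ih hy) (S.mul_mem hy ih)
  have hmono : ∀ Q : Ideal D, Q.IsTwoSided → ∀ n, comm x y n ∈ Q → ∀ k, comm x y (n + k) ∈ Q := by
    intro Q hQ n hn k
    induction k with
    | zero => exact hn
    | succ k ih =>
      rw [← add_assoc]
      exact Q.sub_mem (hQ.mul_mem_of_left _ ih) (Q.mul_mem_left _ ih)
  have hprime : Pr D := by
    intro a b hab
    by_contra hcon
    push Not at hcon
    obtain ⟨n1, h1⟩ := hmax (gen a) (gen_twoSided a) (fun h => hcon.1 (by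
      have := mem_gen a; rw [h] at this; simpa using this))
    obtain ⟨n2, h2⟩ := hmax (gen b) (gen_twoSided b) (fun h => hcon.2 (by
      have := mem_gen b; rw [h] at this; simpa using this))
    have h3 := hmono _ (gen_twoSided a) n1 h1 n2
    have h4 := hmono _ (gen_twoSided b) n2 h2 n1
    rw [add_comm] at h4
    have h5 : comm (comm x y (n1 + n2)) y κ = 0 := by
      apply htame y hy _ (hcommS _)
      intro k
      exact gen_mul_gen hab h3 h4 (y ^ k)
    rw [← comm_add] at h5
    exact hne _ h5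
  have hx0 : x ≠ 0 := hne 0
  -- no zero divisors
  have hnz : ∀ a b : D, a * b = 0 → a = 0 ∨ b = 0 := by
    intro a b hab
    by_contra hcon
    push Not at hcon
    obtain ⟨r1, hr1⟩ : ∃ r, b * r * x ≠ 0 := by
      by_contra h
      push Not at h
      rcases hprime _ _ h with h | h
      · exact hcon.2 h
      · exact hx0 h
    obtain ⟨r2, hr2⟩ : ∃ r, b * r1 * x * r * a ≠ 0 := by
      by_contra h
      push Not at h
      rcases hprime _ _ h with h | h
      · exact hr1 h
      · exact hcon.1 h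
    obtain ⟨w, hw⟩ : ∃ w, w = b * r1 * x * r2 * a := ⟨_, rfl⟩
    rw [← hw] at hr2
    have hwS : w ∈ S := by
      rw [hw]
      exact hr _ _ (hr _ _ (hl _ _ hx))
    have hww : w * w = 0 := by
      have : w * w = b * r1 * x * r2 * (a * b) * r1 * x * r2 * a := by
        rw [hw]; simp only [mul_assoc]
      rw [this, hab]
      simp
    apply hr2
    apply levitzki hprime κ
    intro r
    have h1 : ∀ r', (w * r) ^ κ * w * r' * w = 0 := by
      intro r'
      have hks : w * r' * w * (w * r) = 0 := by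
        rw [mul_assoc, ← mul_assoc w w r, hww, zero_mul, mul_zero]
      have hkk : w * r' * w * (w * r' * w) = 0 := by
        have : w * r' * w * (w * r' * w) = w * r' * (w * w) * r' * w := by simp only [mul_assoc]
        rw [this, hww, mul_zero, zero_mul, zero_mul]
      have h2 := htame (w * r) (hr _ _ hwS) (w * r' * w) (hl _ _ hwS) (by
        intro j
        rcases j with _ | j
        · rw [pow_zero, mul_one, hkk]
        · rw [pow_succ', ← mul_assoc (w * r' * w), hks, zero_mul, zero_mul])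
      rw [comm_of_annih hks] at h2
      have h3 : (w * r) ^ κ * (w * r' * w) = 0 := by
        rcases neg_one_pow_eq_or D κ with h | h
        · rwa [h, one_mul] at h2
        · rw [h, neg_one_mul] at h2
          exact neg_eq_zero.1 h2
      rw [← h3]
      simp only [mul_assoc]
    rcases hprime _ _ h1 with h | h
    · exact h
    · exact absurd h hr2
  have : Nontrivial D := ⟨x, 0, hx0⟩
  have : NoZeroDivisors D := ⟨fun {a b} h => hnz a b h⟩
  have hdom : IsDomain D := NoZeroDivisors.to_isDomain D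
  by_cases hfin : Finite (Subring.centralizer ({y} : Set D))
  · apply hne 1
    show x * y - y * x = 0
    rw [central_of_finite y hfin x, sub_self]
  · obtain ⟨N, ⟨n, hN⟩, hN0, hN1⟩ := ev_J2 hg x y
    have hmemC : ∀ z, z ∈ Subring.centralizer ({y} : Set D) ↔ y * z = z * y := by
      intro c
      rw [Subring.mem_centralizer_iff]
      simp
    have hPM : PMe (fun z => comm x y κ - N z) := PMe_sub (PMe_const _) ⟨n, hN⟩
    obtain ⟨n', hn'⟩ := hPM
    have h1 := PM_vanish (Subring.centralizer ({y} : Set D)).toAddSubgroup (by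
      intro hf
      exact hfin hf) hn' (by
      refine (Set.finite_singleton (0 : D)).subset ?_
      rintro z ⟨hz, hz2⟩
      by_contra hz0
      apply hz2
      have hz' : z * y = y * z := ((hmemC z).1 hz).symm
      have h2 := hform D S hS (z * x) (hl _ _ hx) y hy
      rw [comm_mul_left hz', hN1 z hz'] at h2
      rw [mul_left_cancel₀ hz0 h2, sub_self]) 0 (AddSubgroup.zero_mem _)
    rw [hN0, sub_zero] at h1
    exact hne κ h1

theorem core2 {C : RingClass} (hC : Closed C) (κ : ℕ) (g : Fr) (hg : g ∈ J2)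
    (hform : ∀ (D : Type) [Ring D] (S : NonUnitalSubring D), C S →
      ∀ x ∈ S, ∀ y ∈ S, comm x y κ = ev x y g)
    (R : Type) [NonUnitalRing R] (hR : C R) (D : Type) [Ring D] (j : R →ₙ+* D)
    (hj : Injective j) (hcase : ∀ d : D, ∃ (n : ℤ) (r : R), d = n + j r) (x y : R) :
    ∃ n, comm x y n = 0 := by
  by_contra hne
  push Not at hne
  let Z : Set (Ideal D) := {P | P.IsTwoSided ∧ ∀ n, comm (j x) (j y) n ∉ P}
  have hbot : (⊥ : Ideal D) ∈ Z := by
    refine ⟨inferInstance, fun n h => ?_⟩
    rw [Ideal.mem_bot, ← comm_map] at h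
    exact hne n (hj (by rw [h, map_zero]))
  obtain ⟨P, -, hP⟩ := zorn_le_nonempty₀ Z (by
    intro c hc hchain I hI
    refine ⟨sSup c, ⟨⟨fun {a} b ha => ?_⟩, fun n hn => ?_⟩, fun z hz => le_sSup hz⟩
    · rw [Submodule.mem_sSup_of_directed ⟨I, hI⟩ hchain.directedOn] at ha ⊢
      obtain ⟨Q, hQ, haQ⟩ := ha
      exact ⟨Q, hQ, (hc hQ).1.mul_mem_of_left b haQ⟩
    · rw [Submodule.mem_sSup_of_directed ⟨I, hI⟩ hchain.directedOn] at hn
      obtain ⟨Q, hQ, hnQ⟩ := hn
      exact (hc hQ).2 n hnQ) ⊥ hbot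
  have hP2 : P.IsTwoSided := hP.prop.1
  let π : D →+* D ⧸ P := Ideal.Quotient.mk P
  let jr : NonUnitalSubring D :=
    { carrier := Set.range j
      zero_mem' := ⟨0, map_zero j⟩
      add_mem' := by
        rintro _ _ ⟨a, rfl⟩ ⟨b, rfl⟩
        exact ⟨a + b, map_add j a b⟩
      neg_mem' := by
        rintro _ ⟨a, rfl⟩
        exact ⟨-a, map_neg j a⟩
      mul_mem' := by
        rintro _ _ ⟨a, rfl⟩ ⟨b, rfl⟩
        exact ⟨a * b, map_mul j a b⟩ }
  let S : NonUnitalSubring (D ⧸ P) := jr.map (nu π)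
  have hS : C S := by
    refine hC.of_surjective (A := R) (B := S)
      { toFun := fun r => ⟨π (j r), ⟨j r, ⟨r, rfl⟩, rfl⟩⟩
        map_mul' := fun a b => by ext1; exact (congrArg π (map_mul j a b)).trans (map_mul π _ _)
        map_zero' := by ext1; exact (congrArg π (map_zero j)).trans (map_zero π)
        map_add' := fun a b => by ext1; exact (congrArg π (map_add j a b)).trans (map_add π _ _) }
      ?_ hR
    rintro ⟨_, ⟨_, ⟨r, rfl⟩, rfl⟩⟩
    exact ⟨r, rfl⟩
  have hl : ∀ d : D ⧸ P, ∀ s ∈ S, d * s ∈ S := by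
    intro d s hs
    obtain ⟨d, rfl⟩ := Ideal.Quotient.mk_surjective d
    obtain ⟨_, ⟨s, rfl⟩, rfl⟩ := hs
    obtain ⟨n, r, rfl⟩ := hcase d
    refine ⟨(n + j r) * j s, ⟨n • s + r * s, ?_⟩, map_mul π _ _⟩
    rw [add_mul, map_add, map_mul, map_zsmul, zsmul_eq_mul]
  have hr : ∀ d : D ⧸ P, ∀ s ∈ S, s * d ∈ S := by
    intro d s hs
    obtain ⟨d, rfl⟩ := Ideal.Quotient.mk_surjective d
    obtain ⟨_, ⟨s, rfl⟩, rfl⟩ := hs
    obtain ⟨n, r, rfl⟩ := hcase d
    refine ⟨j s * (n + j r), ⟨n • s + s * r, ?_⟩, map_mul π _ _⟩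
    rw [mul_add, map_add, map_mul, map_zsmul, zsmul_eq_mul, (Int.cast_commute n (j s)).eq]
  obtain ⟨n, hn⟩ := core κ g hg hform (D ⧸ P) S hS hl hr (π (j x)) (π (j y))
    ⟨j x, ⟨x, rfl⟩, rfl⟩ ⟨j y, ⟨y, rfl⟩, rfl⟩ (by
    intro Q hQ hQ0
    by_contra h
    push Not at h
    have hQZ : Ideal.comap π Q ∈ Z := by
      refine ⟨inferInstance, fun n hn => h n ?_⟩
      rw [← comm_ringHom]
      exact hn
    have hle : P ≤ Ideal.comap π Q := by
      intro a ha
      show π a ∈ Q
      rw [show π a = 0 from Ideal.Quotient.eq_zero_iff_mem.2 ha]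
      exact Q.zero_mem
    have heq := hP.eq_of_le hQZ hle
    apply hQ0
    rw [eq_bot_iff]
    intro q hq
    obtain ⟨a, rfl⟩ := Ideal.Quotient.mk_surjective q
    rw [Ideal.mem_bot]
    apply Ideal.Quotient.eq_zero_iff_mem.2
    rw [heq]
    exact hq)
  rw [← comm_ringHom] at hn
  exact hP.prop.2 n (Ideal.Quotient.eq_zero_iff_mem.1 hn)

/-- **A tame variety is Engel.** -/
theorem engel_of_tame {C : RingClass} (hC : Closed C) (ht : Tame C) : IsEngel C := by
  classical
  obtain ⟨κ, g, hg, hform⟩ := exists_form hC ht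
  by_contra hcon
  have hcon' : ∀ n : ℕ, ∃ (R : Type) (_ : NonUnitalRing R) (x y : R), C R ∧
      comm x y (n + 1) ≠ 0 := by
    intro n
    by_contra h
    push Not at h
    exact hcon ⟨n + 1, by omega, fun R _ hR x y => h R _ x y hR⟩
  choose Rn iRn xn yn hRn hxy using hcon'
  let R : Type := ∀ n, Rn n
  have hR : C R := hC.pi Rn hRn
  let x : R := xn
  let y : R := yn
  have hne : ∀ n, comm x y n ≠ 0 := by
    have h1 : ∀ n, comm x y (n + 1) ≠ 0 := by
      intro n h
      have h2 := congrFun h n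
      rw [comm_pi] at h2
      exact hxy n h2
    intro n h
    apply h1 n
    rw [comm, h, zero_mul, mul_zero, sub_zero]
  obtain ⟨n, hn⟩ := core2 hC κ g hg hform R hR (Unitization ℤ R)
    { toFun := Unitization.inr
      map_mul' := fun a b => Unitization.inr_mul ℤ a b
      map_zero' := Unitization.inr_zero ℤ
      map_add' := fun a b => Unitization.inr_add ℤ a b }
    Unitization.inr_injective (fun d => ⟨d.fst, d.snd, by
      refine (Unitization.inl_fst_add_inr_snd_eq d).symm.trans ?_
      congr 1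
      exact eq_intCast (Unitization.inlRingHom ℤ R) d.fst⟩) x y
  exact hne n hn

end Pool.Agent.D0H68.Eng
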