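import Pool.Agent.D0H68.Eng.Form

set_option autoImplicit false

namespace Pool.Agent.D0H68.Eng

open Function

section PM

/-- Polynomial maps of degree at most `n`. -/
def PM {D : Type} [AddCommGroup D] : ℕ → (D → D) → Prop
  | 0, G => ∀ z w, G z = G w
  | n + 1, G => ∀ h, PM n (fun z => G (z + h) - G z)

variable {D : Type}

theorem PM_succ [AddCommGroup D] {n : ℕ} : ∀ {G : D → D}, PM n G → PM (n + 1) G := by
  induction n with
  | zero =>
    intro G hG h z w
    simp only
    rw [hG (z + h) z, hG (w + h) w, sub_self, sub_self]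
  | succ n ih =>
    intro G hG h
    exact ih (hG h)

theorem PM_le [AddCommGroup D] {m n : ℕ} (hmn : m ≤ n) {G : D → D} (hG : PM m G) : PM n G := by
  induction hmn with
  | refl => exact hG
  | step _ ih => exact PM_succ ih

theorem PM_add [AddCommGroup D] {n : ℕ} : ∀ {F G : D → D}, PM n F → PM n G →
    PM n (fun z => F z + G z) := by
  induction n with
  | zero => intro F G hF hG z w; simp only; rw [hF z w, hG z w]
  | succ n ih =>
    intro F G hF hG h
    have e : (fun z => F (z + h) + G (z + h) - (F z + G z)) =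
        fun z => (F (z + h) - F z) + (G (z + h) - G z) := by
      funext z; abel
    show PM n (fun z => F (z + h) + G (z + h) - (F z + G z))
    rw [e]
    exact ih (hF h) (hG h)

theorem PM_shift [AddCommGroup D] {n : ℕ} (t : D) : ∀ {G : D → D}, PM n G →
    PM n (fun z => G (z + t)) := by
  induction n with
  | zero => intro G hG z w; exact hG _ _
  | succ n ih =>
    intro G hG h
    have e : (fun z => G (z + h + t) - G (z + t)) = fun z => G (z + t + h) - G (z + t) := by
      funext z; rw [add_right_comm]
    show PM n (fun z => G (z + h + t) - G (z + t))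
    rw [e]
    exact ih (hG h)

theorem PM_cmul [Ring D] {n : ℕ} (c : D) : ∀ {G : D → D}, PM n G → PM n (fun z => c * G z) := by
  induction n with
  | zero => intro G hG z w; simp only; rw [hG z w]
  | succ n ih =>
    intro G hG h
    have e : (fun z => c * G (z + h) - c * G z) = fun z => c * (G (z + h) - G z) := by
      funext z; rw [mul_sub]
    show PM n (fun z => c * G (z + h) - c * G z)
    rw [e]
    exact ih (hG h)

theorem PM_mulc [Ring D] {n : ℕ} (c : D) : ∀ {G : D → D}, PM n G → PM n (fun z => G z * c) := by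
  induction n with
  | zero => intro G hG z w; simp only; rw [hG z w]
  | succ n ih =>
    intro G hG h
    have e : (fun z => G (z + h) * c - G z * c) = fun z => (G (z + h) - G z) * c := by
      funext z; rw [sub_mul]
    show PM n (fun z => G (z + h) * c - G z * c)
    rw [e]
    exact ih (hG h)

theorem PM_mul [Ring D] : ∀ (s m n : ℕ), m + n = s → ∀ {F G : D → D}, PM m F → PM n G →
    PM s (fun z => F z * G z) := by
  intro s
  induction s with
  | zero =>
    intro m n hs F G hF hG
    obtain ⟨rfl, rfl⟩ : m = 0 ∧ n = 0 := by omega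
    intro z w
    simp only
    rw [hF z w, hG z w]
  | succ s ih =>
    intro m n hs F G hF hG
    rcases m with _ | m
    · have e : (fun z => F z * G z) = fun z => F 0 * G z := by
        funext z; rw [hF z 0]
      rw [e]
      have h0 : n = s + 1 := by omega
      rw [← h0]
      exact PM_cmul _ hG
    rcases n with _ | n
    · have e : (fun z => F z * G z) = fun z => F z * G 0 := by
        funext z; rw [hG z 0]
      rw [e]
      have h0 : m + 1 = s + 1 := by omega
      rw [← h0]
      exact PM_mulc _ hF
    intro h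
    have e : (fun z => F (z + h) * G (z + h) - F z * G z) =
        fun z => (F (z + h) - F z) * G (z + h) + F z * (G (z + h) - G z) := by
      funext z; rw [sub_mul, mul_sub]; abel
    show PM s (fun z => F (z + h) * G (z + h) - F z * G z)
    rw [e]
    apply PM_add
    · exact ih m (n + 1) (by omega) (hF h) (PM_shift h hG)
    · exact ih (m + 1) n (by omega) hF (hG h)

/-- polynomial maps -/
def PMe [Ring D] (G : D → D) : Prop := ∃ n, PM n G

theorem PMe_const [Ring D] (c : D) : PMe (fun _ => c) := ⟨0, fun _ _ => rfl⟩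

theorem PMe_id [Ring D] : PMe (fun z : D => z) := ⟨1, fun h z w => by simp⟩

theorem PMe_add [Ring D] {F G : D → D} (hF : PMe F) (hG : PMe G) : PMe (fun z => F z + G z) := by
  obtain ⟨m, hm⟩ := hF
  obtain ⟨n, hn⟩ := hG
  exact ⟨max m n, PM_add (PM_le (le_max_left _ _) hm) (PM_le (le_max_right _ _) hn)⟩

theorem PMe_mul [Ring D] {F G : D → D} (hF : PMe F) (hG : PMe G) : PMe (fun z => F z * G z) := by
  obtain ⟨m, hm⟩ := hF
  obtain ⟨n, hn⟩ := hG
  exact ⟨m + n, PM_mul _ m n rfl hm hn⟩

theorem PMe_sub [Ring D] {F G : D → D} (hF : PMe F) (hG : PMe G) : PMe (fun z => F z - G z) := by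
  have h := PMe_add hF (PMe_mul (PMe_const (-1)) hG)
  convert h using 2
  rw [neg_one_mul, sub_eq_add_neg]

/-- A polynomial map which vanishes at almost all points of an infinite subgroup vanishes on it. -/
theorem PM_vanish [AddCommGroup D] (C : AddSubgroup D) (hC : (C : Set D).Infinite) {n : ℕ} :
    ∀ {G : D → D}, PM n G → {z | z ∈ C ∧ G z ≠ 0}.Finite → ∀ z ∈ C, G z = 0 := by
  have hex : ∀ G : D → D, {z | z ∈ C ∧ G z ≠ 0}.Finite → ∃ w ∈ C, G w = 0 := by
    intro G hG
    obtain ⟨w, hw, hw2⟩ := hC.exists_notMem_finite hG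
    refine ⟨w, hw, ?_⟩
    by_contra h
    exact hw2 ⟨hw, h⟩
  induction n with
  | zero =>
    intro G hG hfin z _
    obtain ⟨w, _, hw2⟩ := hex G hfin
    rw [hG z w, hw2]
  | succ n ih =>
    intro G hG hfin z hz
    obtain ⟨w, hw, hw2⟩ := hex G hfin
    have h1 := ih (hG (z - w)) (by
      refine (hfin.union (hfin.image (fun u => u - (z - w)))).subset ?_
      rintro u ⟨hu, hu2⟩
      by_cases h : G u = 0
      · right
        refine ⟨u + (z - w), ⟨C.add_mem hu (C.sub_mem hz hw), ?_⟩, by simp⟩
        intro h3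
        exact hu2 (by rw [h3, h, sub_zero])
      · left
        exact ⟨hu, h⟩) w hw
    rw [hw2, sub_zero, add_sub_cancel] at h1
    exact h1

end PM

section Ev

variable {D : Type} [Ring D]

theorem PMe_ev (x y : D) (A : Fr) : PMe (fun z => ev (z * x) y A) := by
  induction A using FreeAlgebra.induction with
  | grade0 r => simpa using PMe_const (r : D)
  | grade1 b =>
    cases b
    · simpa [ev] using PMe_const y
    · simpa [ev] using PMe_mul PMe_id (PMe_const x)
  | mul a b ha hb => simpa using PMe_mul ha hb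
  | add a b ha hb => simpa using PMe_add ha hb

theorem PMe_ev' (x y : D) (A : Fr) : PMe (fun z => ev (x * z) y A) := by
  induction A using FreeAlgebra.induction with
  | grade0 r => simpa using PMe_const (r : D)
  | grade1 b =>
    cases b
    · simpa [ev] using PMe_const y
    · simpa [ev] using PMe_mul (PMe_const x) PMe_id
  | mul a b ha hb => simpa using PMe_mul ha hb
  | add a b ha hb => simpa using PMe_add ha hb

theorem ev_swap (x y z : D) (hz : z * y = y * z) (A : Fr) :
    ev (z * x) y A * z = z * ev (x * z) y A := by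
  induction A using FreeAlgebra.induction with
  | grade0 r => simpa using (Int.cast_commute r z).eq
  | grade1 b =>
    cases b
    · simpa [ev] using hz.symm
    · simp [ev, mul_assoc]
  | mul a b ha hb => rw [map_mul, map_mul, mul_assoc, hb, ← mul_assoc, ha, mul_assoc]
  | add a b ha hb => rw [map_add, map_add, add_mul, mul_add, ha, hb]

theorem ev_J2 {g : Fr} (hg : g ∈ J2) (x y : D) :
    ∃ N : D → D, PMe N ∧ N 0 = 0 ∧ ∀ z, z * y = y * z → ev (z * x) y g = z * N z := by
  unfold J2 at hg
  induction hg using Submodule.span_induction with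
  | mem g hg =>
    obtain ⟨B, C, rfl⟩ := hg
    refine ⟨fun z => x * ev (z * x) y B * z * x * ev (z * x) y C, ?_, by simp, ?_⟩
    · exact PMe_mul (PMe_mul (PMe_mul (PMe_mul (PMe_const x) (PMe_ev x y B)) PMe_id)
        (PMe_const x)) (PMe_ev x y C)
    · intro z _
      rw [map_mul, map_mul, map_mul, ev_X]
      simp only [mul_assoc]
  | zero => exact ⟨fun _ => 0, PMe_const 0, rfl, fun z _ => by simp⟩
  | add a b _ _ ha hb =>
    obtain ⟨N, h1, h2, h3⟩ := ha
    obtain ⟨M, h4, h5, h6⟩ := hb
    exact ⟨fun z => N z + M z, PMe_add h1 h4, by simp [h2, h5],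
      fun z hz => by rw [map_add, h3 z hz, h6 z hz, mul_add]⟩
  | smul A a _ ha =>
    obtain ⟨N, h1, h2, h3⟩ := ha
    refine ⟨fun z => ev (x * z) y A * N z, PMe_mul (PMe_ev' x y A) h1, by simp [h2], ?_⟩
    intro z hz
    rw [smul_eq_mul, map_mul, h3 z hz, ← mul_assoc, ev_swap x y z hz, mul_assoc]

theorem ev_sq {m y : D} (B : Fr) : ∀ u : D, (∀ k : ℕ, m * y ^ k * u * m = 0) →
    (hm : Sq y m) → ∀ k : ℕ, m * y ^ k * (ev m y B * u) * m = 0 := by
  induction B using FreeAlgebra.induction with
  | grade0 r =>
    intro u hu _ k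
    have h := hu k
    have e : m * y ^ k * (ev m y (algebraMap ℤ Fr r) * u) * m = r • (m * y ^ k * u * m) := by
      rw [AlgHom.commutes, Algebra.algebraMap_eq_smul_one, smul_mul_assoc, one_mul,
        mul_smul_comm, smul_mul_assoc]
    rw [e, h, smul_zero]
  | grade1 b =>
    intro u hu hm k
    cases b
    · have e : ev m y (FreeAlgebra.ι ℤ false) = y := ev_Y m y
      rw [e]
      have := hu (k + 1)
      rw [pow_succ, ← mul_assoc, mul_assoc _ y u] at this
      exact this
    · have e : ev m y (FreeAlgebra.ι ℤ true) = m := ev_X m y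
      rw [e, ← mul_assoc, hm k, zero_mul, zero_mul]
  | mul a b ha hb =>
    intro u hu hm k
    rw [map_mul, mul_assoc (ev m y a)]
    exact ha _ (hb u hu hm) hm k
  | add a b ha hb =>
    intro u hu hm k
    rw [map_add, add_mul, mul_add, add_mul, ha u hu hm, hb u hu hm, add_zero]

theorem ev_J2_sq {g : Fr} (hg : g ∈ J2) {m y : D} (hm : Sq y m) : ev m y g = 0 := by
  unfold J2 at hg
  induction hg using Submodule.span_induction with
  | mem g hg =>
    obtain ⟨B, C, rfl⟩ := hg
    have h := ev_sq (m := m) (y := y) B 1 (fun k => by rw [mul_one]; exact hm k) hm 0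
    rw [pow_zero, mul_one, mul_one] at h
    rw [map_mul, map_mul, map_mul, ev_X, h, zero_mul]
  | zero => rw [map_zero]
  | add a b _ _ ha hb => rw [map_add, ha, hb, add_zero]
  | smul A a _ ha => rw [smul_eq_mul, map_mul, ha, mul_zero]

end Ev

section Levitzki

variable {D : Type} [Ring D]

/-- primeness -/
def Pr (D : Type) [Ring D] : Prop := ∀ a b : D, (∀ r : D, a * r * b = 0) → a = 0 ∨ b = 0

theorem pow_word {X Y w : D} (hYX : Y * X = 0) (hYY : Y * (Y * w) = 0) (j : ℕ) :
    (X + Y) ^ (j + 1) * w = X ^ (j + 1) * w + X ^ j * (Y * w) := by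
  induction j with
  | zero => simp [add_mul]
  | succ j ih =>
    have h1 : Y * (X ^ (j + 1) * w) = 0 := by
      rw [pow_succ', ← mul_assoc, ← mul_assoc, hYX, zero_mul, zero_mul]
    have h2 : Y * (X ^ j * (Y * w)) = 0 := by
      rcases j with _ | j
      · rw [pow_zero, one_mul, hYY]
      · rw [pow_succ', mul_assoc X, ← mul_assoc Y, hYX, zero_mul]
    rw [pow_succ' (X + Y), mul_assoc, ih, mul_add, add_mul X Y, add_mul X Y, h1, h2, add_zero,
      add_zero, ← mul_assoc, ← pow_succ', ← mul_assoc, ← pow_succ']

theorem levitzki (hP : Pr D) (n : ℕ) : ∀ w : D, (∀ r, (w * r) ^ n * w = 0) → w = 0 := by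
  induction n with
  | zero => intro w h; simpa using h 0
  | succ n ih =>
    intro w hw
    by_contra hw0
    obtain ⟨r₀, hr₀⟩ : ∃ r, w * r * w ≠ 0 := by
      by_contra hcon
      push Not at hcon
      rcases hP w w hcon with h | h <;> exact hw0 h
    -- the largest `m` with `(w r₀)^m w ≠ 0`
    have hex : ∃ m, (w * r₀) ^ m * w = 0 := ⟨n + 1, hw r₀⟩
    classical
    obtain ⟨M, hM⟩ : ∃ M, M = Nat.find hex := ⟨_, rfl⟩
    have hM0 : (w * r₀) ^ M * w = 0 := by rw [hM]; exact Nat.find_spec hex
    have hMm : ∀ k < M, (w * r₀) ^ k * w ≠ 0 := fun k hk => Nat.find_min hex (by rw [← hM]; exact hk)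
    have hzero : ∀ k, M ≤ k → (w * r₀) ^ k * w = 0 := by
      intro k hk
      obtain ⟨j, rfl⟩ := Nat.exists_eq_add_of_le hk
      rw [add_comm, pow_add, mul_assoc, hM0, mul_zero]
    have hM2 : 2 ≤ M := by
      by_contra h
      have h1 := hzero 1 (by omega)
      rw [pow_one] at h1
      exact hr₀ h1
    obtain ⟨m, rfl⟩ : ∃ m, M = m + 2 := ⟨M - 2, by omega⟩
    let r' := r₀ * (w * r₀) ^ m
    have hwr' : w * r' = (w * r₀) ^ (m + 1) := by
      show w * (r₀ * (w * r₀) ^ m) = _
      rw [← mul_assoc, ← pow_succ']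
    let u := w * r' * w
    have hu : u ≠ 0 := by
      show w * r' * w ≠ 0
      rw [hwr']
      exact hMm _ (by omega)
    have huu : w * r' * w * r' * w = 0 := by
      rw [mul_assoc (w * r') w r', hwr', ← pow_add]
      exact hzero _ (by omega)
    apply hu
    apply ih
    intro t
    have h1 := hw (r' * w * t + r')
    have h2 := hw (r' * w * t)
    have e1 : w * (r' * w * t + r') = u * t + w * r' := by
      show _ = w * r' * w * t + w * r'
      simp only [mul_add, mul_assoc]
    have e2 : w * (r' * w * t) = u * t := by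
      show _ = w * r' * w * t
      simp only [mul_assoc]
    rw [e2] at h2
    rw [e1, pow_word (X := u * t) (Y := w * r') (w := w), h2, zero_add] at h1
    · exact h1
    · show w * r' * (w * r' * w * t) = 0
      have : w * r' * (w * r' * w * t) = w * r' * w * r' * w * t := by simp only [mul_assoc]
      rw [this, huu, zero_mul]
    · have : w * r' * (w * r' * w) = w * r' * w * r' * w := by simp only [mul_assoc]
      rw [this, huu]

end Levitzki

end Pool.Agent.D0H68.Eng
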