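import Mathlib

set_option autoImplicit false

namespace Pool.Agent.D0H68.Eng

instance intJacobson : IsJacobsonRing ℤ := by
  rw [isJacobsonRing_iff_prime_eq]
  intro P hP
  rcases eq_or_ne P ⊥ with rfl | hne
  · refine le_antisymm (fun x hx => ?_) Ideal.le_jacobson
    rw [Ideal.mem_jacobson_bot] at hx
    by_contra hx0
    have hx1 : x ≠ 0 := fun h => hx0 (by rw [h]; exact Ideal.zero_mem _)
    have h1 := hx (2 * x)
    rw [Int.isUnit_iff] at h1
    have h2 : 0 < x * x := by
      have := mul_self_pos.2 hx1
      exact this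
    rcases h1 with h1 | h1 <;> nlinarith
  · have := IsPrime.to_maximal_ideal hne
    exact Ideal.jacobson_eq_self_of_isMaximal

/-- A field which is finitely generated as a ring is finite. -/
theorem finite_of_finiteType {K : Type} [Field K] [Algebra.FiniteType ℤ K] : Finite K := by
  have hfin : Module.Finite ℤ K := finite_of_finite_type_of_isJacobsonRing ℤ K
  by_cases h0 : CharZero K
  · exfalso
    have hint : Algebra.IsIntegral ℤ K := Algebra.IsIntegral.of_finite ℤ K
    have hinj : Function.Injective (algebraMap ℤ K) := by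
      intro a b hab
      simpa using hab
    have : IsField ℤ := isField_of_isIntegral_of_isField hinj (Field.toIsField K)
    exact Int.not_isField this
  · obtain ⟨p, hp⟩ := CharP.exists K
    have hp0 : p ≠ 0 := by
      rintro rfl
      exact h0 (CharP.charP_to_charZero K)
    have : NeZero p := ⟨hp0⟩
    let _ : Algebra (ZMod p) K := ZMod.algebra K p
    have : Module.Finite (ZMod p) K := by
      have : IsScalarTower ℤ (ZMod p) K := by
        refine ⟨fun a b c => ?_⟩
        simp only [Algebra.smul_def, map_mul, eq_intCast, map_intCast, mul_assoc]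
      exact Module.Finite.of_restrictScalars_finite ℤ (ZMod p) K
    exact Module.finite_of_finite (ZMod p)

theorem finite_of_surj {A K : Type} [CommRing A] [Algebra.FiniteType ℤ A] [Field K] (f : A →+* K)
    (hf : Function.Surjective f) : Finite K := by
  have hft : Algebra.FiniteType ℤ K := Algebra.FiniteType.of_surjective f.toIntAlgHom hf
  exact finite_of_finiteType

theorem exists_finite_field {A : Type} [CommRing A] [hA : Algebra.FiniteType ℤ A] (I : Ideal A)
    (δ : A) (h : ∀ n : ℕ, δ ^ n ∉ I) :
    ∃ (K : Type) (_ : Field K) (_ : Finite K) (f : A →+* K),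
      (∀ a ∈ I, f a = 0) ∧ f δ ≠ 0 ∧ Function.Surjective f := by
  have hJ : IsJacobsonRing A := isJacobsonRing_of_finiteType (A := ℤ)
  have h1 : δ ∉ I.jacobson := by
    rw [← I.radical_eq_jacobson]
    rintro ⟨n, hn⟩
    exact h n hn
  rw [Ideal.jacobson, Submodule.mem_sInf] at h1
  push Not at h1
  obtain ⟨m, ⟨hIm, hm⟩, hδ⟩ := h1
  let iF : Field (A ⧸ m) := Ideal.Quotient.field m
  refine ⟨A ⧸ m, iF, finite_of_surj (Ideal.Quotient.mk m) Ideal.Quotient.mk_surjective,
    Ideal.Quotient.mk m, ?_, ?_, Ideal.Quotient.mk_surjective⟩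
  · intro a ha
    exact Ideal.Quotient.eq_zero_iff_mem.2 (hIm ha)
  · intro h2
    exact hδ (Ideal.Quotient.eq_zero_iff_mem.1 h2)

end Pool.Agent.D0H68.Eng
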