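import Pool.Agent.D0H68.Eng.LF

set_option autoImplicit false

namespace Pool.Agent.D0H68.Eng

open Function Polynomial

section Operators

variable {p q f : ℕ} {M : Type} [AddCommGroup M] [Fact p.Prime] [Module (ZMod p) M]

theorem adjoin_pow (hf : 0 < f) (hq : q = p ^ f) [Nontrivial M] (𝒪 : Set (Module.End (ZMod p) M))
    (hcomm : ∀ a ∈ 𝒪, ∀ b ∈ 𝒪, a * b = b * a) (hpow : ∀ a ∈ 𝒪, a ^ q = a) :
    ∀ a ∈ Algebra.adjoin (ZMod p) 𝒪, a ^ q = a := by
  intro a ha
  have hchar : CharP (Module.End (ZMod p) M) p :=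
    charP_of_injective_algebraMap (algebraMap (ZMod p) (Module.End (ZMod p) M)).injective p
  have hc : ∀ a ∈ Algebra.adjoin (ZMod p) 𝒪, ∀ b ∈ Algebra.adjoin (ZMod p) 𝒪,
      a * b = b * a := by
    intro a ha b hb
    have := (Algebra.isMulCommutative_adjoin (ZMod p) hcomm).is_comm.comm ⟨a, ha⟩ ⟨b, hb⟩
    exact congrArg Subtype.val this
  induction ha using Algebra.adjoin_induction with
  | mem x hx => exact hpow x hx
  | algebraMap r =>
    rw [← map_pow]
    congr 1
    rw [hq]
    exact ZMod.pow_card_pow r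
  | add a b ha hb ha' hb' =>
    have h1 : Commute a b := hc a ha b hb
    have h2 : (a + b) ^ q = a ^ q + b ^ q := by
      subst hq
      exact add_pow_char_pow_of_commute _ _ h1
    rw [h2, ha', hb']
  | mul a b ha hb ha' hb' =>
    have h1 : Commute a b := hc a ha b hb
    rw [h1.mul_pow, ha', hb']

/-- The key counting lemma. -/
theorem card_le_of_operators (hf : 0 < f) (hq : q = p ^ f) (𝒪 : Set (Module.End (ZMod p) M))
    (hcomm : ∀ a ∈ 𝒪, ∀ b ∈ 𝒪, a * b = b * a) (hpow : ∀ a ∈ 𝒪, a ^ q = a) (u₀ : M) (hu₀ : u₀ ≠ 0)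
    (huni : ∀ W : AddSubgroup M, W ≠ ⊥ → (∀ a ∈ 𝒪, ∀ w ∈ W, a w ∈ W) → u₀ ∈ W) :
    (Finite M ∧ Nat.card M ≤ q) ∧
      Finite (Algebra.adjoin (ZMod p) 𝒪) ∧ Nat.card (Algebra.adjoin (ZMod p) 𝒪) ≤ q := by
  classical
  have hMn : Nontrivial M := ⟨u₀, 0, hu₀⟩
  have hpf : p.Prime := Fact.out
  have hq2 : 2 ≤ q := by
    rw [hq]
    calc 2 ≤ p := hpf.two_le
      _ = p ^ 1 := (pow_one p).symm
      _ ≤ p ^ f := Nat.pow_le_pow_right hpf.pos hf
  let A := Algebra.adjoin (ZMod p) 𝒪
  have hAcomm : ∀ a b : A, a * b = b * a := fun a b =>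
    (Algebra.isMulCommutative_adjoin (ZMod p) hcomm).is_comm.comm a b
  let iA : CommRing A := { (inferInstance : Ring A) with mul_comm := hAcomm }
  have hApow : ∀ a : A, a ^ q = a := by
    intro a
    apply Subtype.ext
    exact adjoin_pow hf hq 𝒪 hcomm hpow a.1 a.2
  have huniA : ∀ W : AddSubgroup M, W ≠ ⊥ → (∀ a : A, ∀ w ∈ W, (a : Module.End (ZMod p) M) w ∈ W) →
      u₀ ∈ W := fun W hW hWA => huni W hW (fun a ha w hw => hWA ⟨a, Algebra.subset_adjoin ha⟩ w hw)
  -- nonzero elements are injective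
  have hinj : ∀ a : A, a ≠ 0 → ∀ v : M, (a : Module.End (ZMod p) M) v = 0 → v = 0 := by
    intro a ha v hv
    by_contra hv0
    let W1 : AddSubgroup M := (LinearMap.ker (a : Module.End (ZMod p) M)).toAddSubgroup
    let W2 : AddSubgroup M := (LinearMap.range (a : Module.End (ZMod p) M)).toAddSubgroup
    have h1 : u₀ ∈ W1 := by
      apply huniA
      · intro h
        have : v ∈ W1 := hv
        rw [h] at this
        exact hv0 this
      · intro b w hw
        have hw' : (a : Module.End (ZMod p) M) w = 0 := hw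
        show (a : Module.End (ZMod p) M) ((b : Module.End (ZMod p) M) w) = 0
        have := congrArg (fun z : A => (z : Module.End (ZMod p) M) w) (hAcomm a b)
        simp only [Subalgebra.coe_mul, Module.End.mul_apply] at this
        rw [this, hw', map_zero]
    have h2 : u₀ ∈ W2 := by
      apply huniA
      · intro h
        apply ha
        apply Subtype.ext
        ext w
        have : (a : Module.End (ZMod p) M) w ∈ W2 := ⟨w, rfl⟩
        rw [h] at this
        exact this
      · rintro b _ ⟨w, rfl⟩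
        refine ⟨(b : Module.End (ZMod p) M) w, ?_⟩
        have := congrArg (fun z : A => (z : Module.End (ZMod p) M) w) (hAcomm a b)
        simpa only [Subalgebra.coe_mul, Module.End.mul_apply] using this
    obtain ⟨w, hw⟩ := h2
    have h3 : (a : Module.End (ZMod p) M) u₀ = 0 := h1
    apply hu₀
    have h4 : ((a ^ q : A) : Module.End (ZMod p) M) w = 0 := by
      obtain ⟨k, hk⟩ : ∃ k, q = k + 2 := ⟨q - 2, by omega⟩
      rw [hk, pow_add, pow_two]
      show ((a ^ k : A) : Module.End (ZMod p) M)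
        ((a : Module.End (ZMod p) M) ((a : Module.End (ZMod p) M) w)) = 0
      rw [hw, h3, map_zero]
    rw [hApow] at h4
    rw [← hw, h4]
  have hAnt : Nontrivial A := inferInstance
  have hAnz : NoZeroDivisors A := by
    refine ⟨fun {a b} hab => ?_⟩
    by_contra hcon
    push Not at hcon
    apply hcon.2
    apply Subtype.ext
    ext w
    apply hinj a hcon.1
    have := congrArg (fun z : A => (z : Module.End (ZMod p) M) w) hab
    exact this
  have hAdom : IsDomain A := NoZeroDivisors.to_isDomain A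
  -- counting roots
  have hP0 : (X ^ q - X : A[X]) ≠ 0 := by
    have : (X ^ q - X : A[X]).Monic := by
      apply monic_X_pow_sub
      rw [degree_X]
      exact_mod_cast (by omega : 1 < q)
    exact this.ne_zero
  have hdeg : (X ^ q - X : A[X]).natDegree ≤ q := by
    refine (natDegree_sub_le _ _).trans (max_le (natDegree_X_pow_le q) ?_)
    exact natDegree_X_le.trans (by omega)
  have hroots : ∀ a : A, a ∈ (X ^ q - X : A[X]).roots.toFinset := by
    intro a
    rw [Multiset.mem_toFinset, mem_roots hP0]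
    simp only [IsRoot.def, eval_sub, eval_pow, eval_X]
    rw [hApow, sub_self]
  have hAfin : Finite A := Set.finite_univ_iff.1
    (((X ^ q - X : A[X]).roots.toFinset.finite_toSet).subset (fun a _ => hroots a))
  have hAcard : Nat.card A ≤ q := by
    have := Fintype.ofFinite A
    rw [Nat.card_eq_fintype_card, ← Finset.card_univ]
    calc (Finset.univ : Finset A).card ≤ (X ^ q - X : A[X]).roots.toFinset.card :=
          Finset.card_le_card (fun a _ => hroots a)
      _ ≤ (X ^ q - X : A[X]).roots.card := Multiset.toFinset_card_le _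
      _ ≤ _ := (card_roots' _).trans hdeg
  -- `M` is the orbit of `u₀`
  have hsurj : Surjective (fun a : A => (a : Module.End (ZMod p) M) u₀) := by
    intro v
    rcases eq_or_ne v 0 with rfl | hv
    · exact ⟨0, rfl⟩
    let W : AddSubgroup M :=
      { carrier := Set.range (fun a : A => (a : Module.End (ZMod p) M) v)
        zero_mem' := ⟨0, rfl⟩
        add_mem' := by
          rintro _ _ ⟨a, rfl⟩ ⟨b, rfl⟩
          exact ⟨a + b, rfl⟩
        neg_mem' := by
          rintro _ ⟨a, rfl⟩
          exact ⟨-a, rfl⟩ }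
    have h1 : u₀ ∈ W := by
      apply huniA
      · intro h
        have : v ∈ W := ⟨1, rfl⟩
        rw [h] at this
        exact hv this
      · rintro b _ ⟨a, rfl⟩
        exact ⟨b * a, rfl⟩
    obtain ⟨a, ha⟩ := h1
    simp only at ha
    have ha0 : a ≠ 0 := by
      rintro rfl
      exact hu₀ ha.symm
    refine ⟨a ^ (q - 2), ?_⟩
    apply sub_eq_zero.1
    apply hinj a ha0
    rw [map_sub]
    simp only
    rw [← ha]
    have h2 : ((a ^ q : A) : Module.End (ZMod p) M) v = (a : Module.End (ZMod p) M) v := by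
      rw [hApow]
    obtain ⟨k, hk⟩ : ∃ k, q = k + 2 := ⟨q - 2, by omega⟩
    have h3 : q - 2 = k := by omega
    rw [h3]
    rw [hk] at h2
    have h4 : ((a ^ (k + 2) : A) : Module.End (ZMod p) M) v =
        (a : Module.End (ZMod p) M) (((a ^ k : A) : Module.End (ZMod p) M)
          ((a : Module.End (ZMod p) M) v)) := by
      rw [show k + 2 = 1 + k + 1 from by ring, pow_add, pow_add, pow_one]
      rfl
    rw [← h4, h2, sub_self]
  refine ⟨⟨Finite.of_surjective _ hsurj, ?_⟩, hAfin, hAcard⟩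
  exact (Nat.card_le_card_of_surjective _ hsurj).trans hAcard

end Operators

namespace Env

variable {p q f : ℕ} {D : Type} [Ring D] {S : NonUnitalSubring D}

theorem idem_aux {R : Type} [CommRing R] {p q f : ℕ} (hp : p.Prime) (hf : 0 < f) (hq : q = p ^ f)
    (h0 : (p : R) = 0) (s : R) (hs : (s ^ q - s) ^ 2 = 0) :
    (s ^ (q - 1)) ^ p * (s ^ (q - 1)) ^ p = (s ^ (q - 1)) ^ p := by
  have hq2 : 2 ≤ q := by
    rw [hq]
    calc 2 ≤ p := hp.two_le
      _ = p ^ 1 := (pow_one p).symm
      _ ≤ p ^ f := Nat.pow_le_pow_right hp.pos hf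
  obtain ⟨k, rfl⟩ : ∃ k, q = k + 2 := ⟨q - 2, by omega⟩
  have e1 : k + 2 - 1 = k + 1 := by omega
  rw [e1]
  have h1 : s ^ (k + 1) * s ^ (k + 1) - s ^ (k + 1) = s ^ k * (s ^ (k + 2) - s) := by ring
  have h2 : (s ^ (k + 1) * s ^ (k + 1) - s ^ (k + 1)) ^ 2 = 0 := by
    rw [h1, mul_pow, hs, mul_zero]
  have h3 : (s ^ (k + 1) * s ^ (k + 1) - s ^ (k + 1)) ^ p = 0 := by
    obtain ⟨j, hj⟩ := Nat.exists_eq_add_of_le hp.two_le
    rw [hj, pow_add, h2, zero_mul]
  rcases subsingleton_or_nontrivial R with hss | hn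
  · exact Subsingleton.elim _ _
  have hpf : Fact p.Prime := ⟨hp⟩
  have hchar : CharP R p := (CharP.charP_iff_prime_eq_zero hp).2 h0
  rw [sub_pow_char, mul_pow, sub_eq_zero] at h3
  exact h3

end Env

end Pool.Agent.D0H68.Eng
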