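import Pool.Agent.D0H68.Eng.SI

set_option autoImplicit false

namespace Pool.Agent.D0H68.Eng

open Function

namespace Env

variable {p q f : ℕ} {D : Type} [Ring D] {S : NonUnitalSubring D}

/-- Bimodule version of the counting lemma. -/
theorem card_module_aux (h : Env p q f D S) {M : Type} [AddCommGroup M] [Fact p.Prime]
    [Module (ZMod p) M] (ι : M →+ D)
    (hι : Injective ι) (Lh Rh : D → (M →+ M)) (hLh : ∀ c w, ι (Lh c w) = c * ι w)
    (hRh : ∀ c w, ι (Rh c w) = ι w * c)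
    (hNW : ∀ n ∈ NN q S, ∀ w : M, n * ι w = 0 ∧ ι w * n = 0) (u₀ : M)
    (hu₀0 : u₀ ≠ 0) (huni : ∀ W : AddSubgroup M, W ≠ ⊥ → (∀ c, ∀ w ∈ W, Lh c w ∈ W) →
      (∀ c, ∀ w ∈ W, Rh c w ∈ W) → u₀ ∈ W) :
    (Finite M ∧ Nat.card M ≤ q) ∧ ∃ (A : Type) (Lf Rf : D → A), Finite A ∧ Nat.card A ≤ q ∧
      (∀ a b, Lf a = Lf b → ∀ w : M, (a - b) * ι w = 0) ∧
      (∀ a b, Rf a = Rf b → ∀ w : M, ι w * (a - b) = 0) := by
  classical
  let L : D → Module.End (ZMod p) M := fun c => (Lh c).toZModLinearMap p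
  let R : D → Module.End (ZMod p) M := fun c => (Rh c).toZModLinearMap p
  have hL : ∀ (c : D) (w : M), ι (L c w) = c * ι w := fun c w => hLh c w
  have hR : ∀ (c : D) (w : M), ι (R c w) = ι w * c := fun c w => hRh c w
  let 𝒪 : Set (Module.End (ZMod p) M) := Set.range L ∪ Set.range R
  have hLL : ∀ a b, L a * L b = L b * L a := by
    intro a b
    apply LinearMap.ext
    intro w
    apply hι
    rw [Module.End.mul_apply, Module.End.mul_apply, hL, hL, hL, hL]
    have := (hNW _ (h.comm_mem a b) w).1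
    rw [sub_mul, sub_eq_zero] at this
    rw [← mul_assoc, ← mul_assoc, this]
  have hRR : ∀ a b, R a * R b = R b * R a := by
    intro a b
    apply LinearMap.ext
    intro w
    apply hι
    rw [Module.End.mul_apply, Module.End.mul_apply, hR, hR, hR, hR]
    have := (hNW _ (h.comm_mem a b) w).2
    rw [mul_sub, sub_eq_zero] at this
    rw [mul_assoc, mul_assoc, this]
  have hLR : ∀ a b, L a * R b = R b * L a := by
    intro a b
    apply LinearMap.ext
    intro w
    apply hι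
    rw [Module.End.mul_apply, Module.End.mul_apply, hL, hR, hR, hL, mul_assoc]
  have hcomm : ∀ a ∈ 𝒪, ∀ b ∈ 𝒪, a * b = b * a := by
    rintro _ (⟨a, rfl⟩ | ⟨a, rfl⟩) _ (⟨b, rfl⟩ | ⟨b, rfl⟩)
    · exact hLL a b
    · exact hLR a b
    · exact (hLR b a).symm
    · exact hRR a b
  have hLp : ∀ (c : D) (n : ℕ) (w : M), ι ((L c ^ n) w) = c ^ n * ι w := by
    intro c n
    induction n with
    | zero => intro w; rw [pow_zero, pow_zero, Module.End.one_apply, one_mul]
    | succ n ih => intro w; rw [pow_succ, Module.End.mul_apply, ih, hL, pow_succ, mul_assoc]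
  have hRp : ∀ (c : D) (n : ℕ) (w : M), ι ((R c ^ n) w) = ι w * c ^ n := by
    intro c n
    induction n with
    | zero => intro w; rw [pow_zero, pow_zero, Module.End.one_apply, mul_one]
    | succ n ih => intro w; rw [pow_succ, Module.End.mul_apply, ih, hR, pow_succ', mul_assoc]
  have hpow : ∀ a ∈ 𝒪, a ^ q = a := by
    rintro _ (⟨a, rfl⟩ | ⟨a, rfl⟩)
    · apply LinearMap.ext
      intro w
      apply hι
      rw [hLp, hL]
      have := (hNW _ (h.pow_mem a) w).1
      rwa [sub_mul, sub_eq_zero] at this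
    · apply LinearMap.ext
      intro w
      apply hι
      rw [hRp, hR]
      have := (hNW _ (h.pow_mem a) w).2
      rwa [mul_sub, sub_eq_zero] at this
  obtain ⟨hc1, hfinA, hcA⟩ := card_le_of_operators h.fpos h.qpf 𝒪 hcomm hpow u₀ hu₀0 (by
    intro W hW hWst
    exact huni W hW (fun c w hw => hWst _ (Or.inl ⟨c, rfl⟩) _ hw)
      (fun c w hw => hWst _ (Or.inr ⟨c, rfl⟩) _ hw))
  refine ⟨hc1, Algebra.adjoin (ZMod p) 𝒪,
    fun c => ⟨L c, Algebra.subset_adjoin (Or.inl ⟨c, rfl⟩)⟩,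
    fun c => ⟨R c, Algebra.subset_adjoin (Or.inr ⟨c, rfl⟩)⟩, hfinA, hcA, ?_, ?_⟩
  · intro a b hab w
    have h0 : L a = L b := congrArg Subtype.val hab
    have h1 : ι (L a w) = ι (L b w) := by rw [h0]
    rw [hL, hL] at h1
    rw [sub_mul, h1, sub_self]
  · intro a b hab w
    have h0 : R a = R b := congrArg Subtype.val hab
    have h1 : ι (R a w) = ι (R b w) := by rw [h0]
    rw [hR, hR] at h1
    rw [mul_sub, h1, sub_self]

theorem card_module (h : Env p q f D S) {M : Type} [AddCommGroup M] (ι : M →+ D)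
    (hι : Injective ι) (Lh Rh : D → (M →+ M)) (hLh : ∀ c w, ι (Lh c w) = c * ι w)
    (hRh : ∀ c w, ι (Rh c w) = ι w * c)
    (hNW : ∀ n ∈ NN q S, ∀ w : M, n * ι w = 0 ∧ ι w * n = 0) (u₀ : M)
    (hu₀0 : u₀ ≠ 0) (huni : ∀ W : AddSubgroup M, W ≠ ⊥ → (∀ c, ∀ w ∈ W, Lh c w ∈ W) →
      (∀ c, ∀ w ∈ W, Rh c w ∈ W) → u₀ ∈ W) :
    (Finite M ∧ Nat.card M ≤ q) ∧ ∃ (A : Type) (Lf Rf : D → A), Finite A ∧ Nat.card A ≤ q ∧
      (∀ a b, Lf a = Lf b → ∀ w : M, (a - b) * ι w = 0) ∧
      (∀ a b, Rf a = Rf b → ∀ w : M, ι w * (a - b) = 0) := by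
  have hpf : Fact p.Prime := ⟨h.prime⟩
  have hp0 : ∀ x : M, p • x = 0 := by
    intro x
    apply hι
    rw [map_nsmul, nsmul_eq_mul, h.hp, zero_mul, map_zero]
  let _ : Module (ZMod p) M := AddCommGroup.zmodModule hp0
  exact h.card_module_aux ι hι Lh Rh hLh hRh hNW u₀ hu₀0 huni

theorem card_ideal (h : Env p q f D S) (W0 : Ideal D) [hW2 : W0.IsTwoSided]
    (hNW : ∀ n ∈ NN q S, ∀ w ∈ W0, n * w = 0 ∧ w * n = 0) (u₀ : D) (hu₀ : u₀ ∈ W0)
    (hu₀0 : u₀ ≠ 0) (huni : ∀ Q : Ideal D, Q.IsTwoSided → Q ≠ ⊥ → Q ≤ W0 → u₀ ∈ Q) :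
    (Finite W0 ∧ Nat.card W0 ≤ q) ∧ ∃ (A : Type) (Lf Rf : D → A), Finite A ∧ Nat.card A ≤ q ∧
      (∀ a b, Lf a = Lf b → ∀ w ∈ W0, (a - b) * w = 0) ∧
      (∀ a b, Rf a = Rf b → ∀ w ∈ W0, w * (a - b) = 0) := by
  classical
  let Lh : D → (W0 →+ W0) := fun c =>
    { toFun := fun w => ⟨c * w, W0.mul_mem_left c w.2⟩
      map_zero' := by ext1; exact mul_zero c
      map_add' := fun a b => by ext1; exact mul_add c _ _ }
  let Rh : D → (W0 →+ W0) := fun c =>
    { toFun := fun w => ⟨w * c, W0.mul_mem_right c w.2⟩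
      map_zero' := by ext1; exact zero_mul c
      map_add' := fun a b => by ext1; exact add_mul _ _ c }
  let ι : W0 →+ D :=
    { toFun := fun w => w
      map_zero' := rfl
      map_add' := fun _ _ => rfl }
  obtain ⟨hc1, A, Lf, Rf, hfinA, hcA, hLf, hRf⟩ := h.card_module ι
    (fun a b hab => Subtype.ext hab) Lh Rh (fun c w => rfl) (fun c w => rfl)
    (fun n hn w => hNW n hn w w.2) ⟨u₀, hu₀⟩ (by
    intro h1
    exact hu₀0 (congrArg Subtype.val h1)) (by
    intro W hW hWl hWr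
    let Q : Ideal D :=
      { carrier := {d | ∃ hd : d ∈ W0, (⟨d, hd⟩ : W0) ∈ W}
        zero_mem' := ⟨W0.zero_mem, W.zero_mem⟩
        add_mem' := by
          rintro a b ⟨ha, ha'⟩ ⟨hb, hb'⟩
          exact ⟨W0.add_mem ha hb, W.add_mem ha' hb'⟩
        smul_mem' := by
          rintro c a ⟨ha, ha'⟩
          exact ⟨W0.mul_mem_left c ha, hWl c _ ha'⟩ }
    have hQ2 : Q.IsTwoSided := ⟨by
      rintro a c ⟨ha, ha'⟩
      exact ⟨W0.mul_mem_right c ha, hWr c _ ha'⟩⟩
    have hQ0 : Q ≠ ⊥ := by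
      intro hQ
      apply hW
      rw [AddSubgroup.eq_bot_iff_forall]
      rintro ⟨w, hw⟩ hwW
      have : w ∈ Q := ⟨hw, hwW⟩
      rw [hQ, Ideal.mem_bot] at this
      exact Subtype.ext this
    obtain ⟨_, h2⟩ := huni Q hQ2 hQ0 (fun w hw => hw.1)
    exact h2)
  exact ⟨hc1, A, Lf, Rf, hfinA, hcA, fun a b hab w hw => hLf a b hab ⟨w, hw⟩,
    fun a b hab w hw => hRf a b hab ⟨w, hw⟩⟩

/-- the ideal `S` -/
def SId (h : Env p q f D S) : Ideal D :=
  { carrier := S
    zero_mem' := S.zero_mem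
    add_mem' := S.add_mem
    smul_mem' := fun c s hs => h.hl c s hs }

instance (h : Env p q f D S) : h.SId.IsTwoSided := ⟨fun {s} c hs => h.hr c s hs⟩

/-- an element of `S` which annihilates `NN` on both sides lies in `NN`. -/
theorem mem_of_annih (h : Env p q f D S) (u₀ : D) (hu₀ : u₀ ∈ NN q S)
    (hu₀0 : u₀ ≠ 0) (huni : ∀ Q : Ideal D, Q.IsTwoSided → Q ≠ ⊥ → Q ≤ h.SId → u₀ ∈ Q)
    (s : D) (hs : s ∈ S) (hsl : ∀ n ∈ NN q S, s * n = 0) (hsr : ∀ n ∈ NN q S, n * s = 0) :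
    s ∈ NN q S := by
  classical
  by_contra hsN
  have hq2 := h.two_le
  -- the idempotent
  obtain ⟨e, he⟩ : ∃ e : D, e = (s ^ (q - 1)) ^ p := ⟨_, rfl⟩
  have hee : e * e = e := by
    let B : Subring D := Subring.closure {s}
    have hBcomm : ∀ a b : B, a * b = b * a := fun a b =>
      (Subring.isMulCommutative_closure (s := ({s} : Set D)) (by
        rintro a rfl b rfl; rfl)).is_comm.comm a b
    let iB : CommRing B := { (inferInstance : Ring B) with mul_comm := hBcomm }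
    have hsB : s ∈ B := Subring.subset_closure rfl
    have hpB : (p : B) = 0 := by
      apply Subtype.ext
      have := h.hp
      push_cast
      exact this
    have h1 := idem_aux h.prime h.fpos h.qpf hpB (⟨s, hsB⟩ : B) (by
      apply Subtype.ext
      show (s ^ q - s) ^ 2 = 0
      rw [pow_two]
      exact h.NN_mul (h.pow_mem s) (h.pow_mem s))
    have h2 := congrArg Subtype.val h1
    rw [he]
    exact h2
  have hpowS : ∀ k, s ^ (k + 1) ∈ S := by
    intro k
    induction k with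
    | zero => simpa using hs
    | succ k ih => rw [pow_succ]; exact S.mul_mem ih hs
  obtain ⟨k, hk⟩ : ∃ k, (q - 1) * p = k + 1 := by
    refine ⟨(q - 1) * p - 1, ?_⟩
    have : 0 < (q - 1) * p := Nat.mul_pos (by omega) h.prime.pos
    omega
  have he' : e = s ^ (k + 1) := by rw [he, ← pow_mul, hk]
  have heS : e ∈ S := by rw [he']; exact hpowS k
  have heN : e ∉ NN q S := by
    intro heN
    apply hsN
    -- `s * e ≡ s`
    have h1 : ∀ j : ℕ, s ^ (1 + (q - 1) * j) - s ∈ NN q S := by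
      intro j
      induction j with
      | zero => simp
      | succ j ih =>
        have e1 : s ^ (1 + (q - 1) * (j + 1)) - s =
            (s ^ (1 + (q - 1) * j) - s) * s ^ (q - 1) + (s ^ q - s) := by
          have e2 : s ^ q = s * s ^ (q - 1) := by
            rw [← pow_succ']; congr 1; omega
          rw [e2, sub_mul, ← pow_add]
          have e3 : 1 + (q - 1) * (j + 1) = 1 + (q - 1) * j + (q - 1) := by ring
          rw [e3]
          abel
        rw [e1]
        exact (NN q S).add_mem ((NN q S).mul_mem_right _ ih) (h.pow_mem s)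
    have h2 := h1 p
    have h3 : s ^ (1 + (q - 1) * p) ∈ NN q S := by
      rw [pow_add, pow_one, pow_mul, ← he]
      exact (NN q S).mul_mem_left _ heN
    have h4 := (NN q S).sub_mem h3 h2
    rwa [sub_sub_cancel] at h4
  have hel : ∀ n ∈ NN q S, e * n = 0 := by
    intro n hn
    rw [he', pow_succ, mul_assoc, hsl n hn, mul_zero]
  have her : ∀ n ∈ NN q S, n * e = 0 := by
    intro n hn
    rw [he', pow_succ', ← mul_assoc, hsr n hn, zero_mul]
  have hcent : ∀ d, e * d = d * e := by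
    intro d
    have h1 := hel _ (h.comm_mem e d)
    have h2 := her _ (h.comm_mem e d)
    rw [mul_sub, ← mul_assoc, hee, sub_eq_zero] at h1
    rw [sub_mul, mul_assoc d, hee, sub_eq_zero] at h2
    rw [h1, ← mul_assoc, h2]
  let Q : Ideal D :=
    { carrier := {d | ∃ a, d = e * a}
      zero_mem' := ⟨0, by simp⟩
      add_mem' := by
        rintro _ _ ⟨a, rfl⟩ ⟨b, rfl⟩
        exact ⟨a + b, by rw [mul_add]⟩
      smul_mem' := by
        rintro c _ ⟨a, rfl⟩
        exact ⟨c * a, by rw [smul_eq_mul, ← mul_assoc, ← hcent, mul_assoc]⟩ }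
  have hQ2 : Q.IsTwoSided := ⟨by
    rintro _ c ⟨a, rfl⟩
    exact ⟨a * c, by rw [mul_assoc]⟩⟩
  have heQ : e ∈ Q := ⟨e, hee.symm⟩
  obtain ⟨a, ha⟩ := huni Q hQ2 (by
    intro hQ
    rw [hQ, Ideal.mem_bot] at heQ
    apply heN
    rw [heQ]
    exact (NN q S).zero_mem) (by
    rintro _ ⟨a, rfl⟩
    exact h.hr _ _ heS)
  apply hu₀0
  have h1 : e * u₀ = u₀ := by rw [ha, ← mul_assoc, hee]
  rw [← h1]
  exact hel _ hu₀

/-- **Subdirectly irreducible rings are small.** -/
theorem card_le (h : Env p q f D S) (u₀ : D) (hu₀ : u₀ ∈ S)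
    (hu₀0 : u₀ ≠ 0) (huni : ∀ Q : Ideal D, Q.IsTwoSided → Q ≠ ⊥ → Q ≤ h.SId → u₀ ∈ Q) :
    Finite S ∧ Nat.card S ≤ q ^ 3 := by
  classical
  have hq1 : 1 ≤ q := h.qpos
  by_cases hN : NN q S = ⊥
  · obtain ⟨⟨h1, h2⟩, -⟩ := h.card_ideal h.SId (by
      intro n hn w _
      rw [hN, Ideal.mem_bot] at hn
      rw [hn]
      simp) u₀ hu₀ hu₀0 huni
    refine ⟨h1, le_trans (b := q) h2 ?_⟩
    exact Nat.le_self_pow (by norm_num) q
  · have hu₀N : u₀ ∈ NN q S := huni _ inferInstance hN (fun w hw => h.NN_sub hw)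
    obtain ⟨⟨h1, h2⟩, A, Lf, Rf, hA, hcA, hLf, hRf⟩ := h.card_ideal (NN q S) (by
      intro n hn w hw
      exact ⟨h.NN_mul hn hw, h.NN_mul hw hn⟩) u₀ hu₀N hu₀0 (by
      intro Q hQ hQ0 hQN
      exact huni Q hQ hQ0 (fun w hw => h.NN_sub (hQN hw)))
    -- an injection
    have hdiff : ∀ s t : S, (Lf s, Rf s) = (Lf t, Rf t) → (s : D) - t ∈ NN q S := by
      intro s t hst
      have e1 := congrArg Prod.fst hst
      have e2 := congrArg Prod.snd hst
      exact h.mem_of_annih u₀ hu₀N hu₀0 huni _ (S.sub_mem s.2 t.2)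
        (fun n hn => hLf _ _ e1 n hn) (fun n hn => hRf _ _ e2 n hn)
    let g : S → A × A := fun s => (Lf s, Rf s)
    let rep : A × A → S := fun a => if ha : ∃ s, g s = a then ha.choose else 0
    have hrep : ∀ s : S, g (rep (g s)) = g s := by
      intro s
      have hex : ∃ t, g t = g s := ⟨s, rfl⟩
      simp only [rep, dif_pos hex]
      exact hex.choose_spec
    let F : S → (A × A) × NN q S := fun s =>
      (g s, ⟨(s : D) - rep (g s), hdiff _ _ (hrep s).symm⟩)
    have hF : Injective F := by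
      intro s t hst
      have e1 : g s = g t := congrArg Prod.fst hst
      have e2 := congrArg (fun z => (z.2 : D)) hst
      simp only [F] at e2
      rw [e1] at e2
      exact Subtype.ext (sub_left_injective e2)
    refine ⟨Finite.of_injective F hF, ?_⟩
    calc Nat.card S ≤ Nat.card ((A × A) × NN q S) := Nat.card_le_card_of_injective F hF
      _ = Nat.card A * Nat.card A * Nat.card (NN q S) := by rw [Nat.card_prod, Nat.card_prod]
      _ ≤ q * q * q := Nat.mul_le_mul (Nat.mul_le_mul hcA hcA) h2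
      _ = q ^ 3 := by ring

end Env

end Pool.Agent.D0H68.Eng
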