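import Pool.Agent.D0H68.Eng.Terms

set_option autoImplicit false

namespace Pool.Agent.D0H68.Eng

open Function

instance finite_nonUnitalRing (α : Type) [Finite α] : Finite (NonUnitalRing α) := by
  classical
  let F : NonUnitalRing α → (α → α → α) × (α → α → α) := fun i =>
    (fun a b => i.add a b, fun a b => i.mul a b)
  have hF : Injective F := by
    intro i i' hii
    have h1 := congrArg Prod.fst hii
    have h2 := congrArg Prod.snd hii
    apply NonUnitalRing.ext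
    · funext a b
      exact congrFun (congrFun h1 a) b
    · funext a b
      exact congrFun (congrFun h2 a) b
  exact Finite.of_injective F hF

theorem transport {R α : Type} [NonUnitalRing R] (ε : R ≃ α) :
    ∃ i : NonUnitalRing α, Nonempty (@RingEquiv R α _ i.toMul _ i.toAdd) := by
  let i : NonUnitalRing α := Equiv.nonUnitalRing ε.symm
  refine ⟨i, ⟨?_⟩⟩
  exact
    { toFun := ε
      invFun := ε.symm
      left_inv := ε.left_inv
      right_inv := ε.right_inv
      map_mul' := fun x y => by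
        show ε (x * y) = ε.symm.symm (ε.symm (ε x) * ε.symm (ε y))
        rw [ε.symm_apply_apply, ε.symm_apply_apply]
        rfl
      map_add' := fun x y => by
        show ε (x + y) = ε.symm.symm (ε.symm (ε x) + ε.symm (ε y))
        rw [ε.symm_apply_apply, ε.symm_apply_apply]
        rfl }

/-- There are finitely many rings of bounded order. -/
theorem exists_small (B : ℕ) : ∃ (n : ℕ) (K : Fin n → Type) (_ : ∀ i, NonUnitalRing (K i)),
    ∀ (R : Type) [NonUnitalRing R], Finite R → Nat.card R ≤ B → ∃ i, Nonempty (R ≃+* K i) := by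
  classical
  let T : Type := Σ k : Fin (B + 1), NonUnitalRing (Fin k)
  have hT : Finite T := inferInstance
  obtain ⟨n, ⟨e⟩⟩ := Finite.exists_equiv_fin T
  refine ⟨n, fun i => Fin (e.symm i).1, fun i => (e.symm i).2, ?_⟩
  intro R _ hR hB
  have ε : R ≃ Fin (Nat.card R) := Finite.equivFin R
  obtain ⟨inst, h1⟩ := transport ε
  let x : T := ⟨⟨Nat.card R, Nat.lt_succ_of_le hB⟩, inst⟩
  refine ⟨e x, ?_⟩
  have h2 : ∀ y : T, y = x → Nonempty (@RingEquiv R (Fin y.1) _ y.2.toMul _ y.2.toAdd) := by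
    rintro _ rfl
    exact h1
  exact h2 _ (e.symm_apply_apply x)

namespace Env

variable {p q f : ℕ} {D : Type} [Ring D] {S : NonUnitalSubring D}

/-- Quotients of environments. -/
theorem quotient (h : Env p q f D S) (Q : Ideal D) [Q.IsTwoSided] :
    Env p q f (D ⧸ Q) (S.map (nu (Ideal.Quotient.mk Q))) := by
  have hU : ∀ u ∈ U0 q (S.map (nu (Ideal.Quotient.mk Q))), ∃ u' ∈ U0 q S,
      Ideal.Quotient.mk Q u' = u := by
    rintro _ (⟨_, ⟨a, ha, rfl⟩, _, ⟨b, hb, rfl⟩, rfl⟩ | ⟨_, ⟨a, ha, rfl⟩, rfl⟩)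
    · exact ⟨a * b - b * a, Or.inl ⟨a, ha, b, hb, rfl⟩, by
        rw [map_sub, map_mul, map_mul]; rfl⟩
    · exact ⟨a ^ q - a, Or.inr ⟨a, ha, rfl⟩, by rw [map_sub, map_pow]; rfl⟩
  refine ⟨h.prime, h.fpos, h.qpf, ?_, ?_, ?_, ?_, ?_, ?_⟩
  · rw [← map_natCast (Ideal.Quotient.mk Q), h.hp, map_zero]
  · rintro d _ ⟨s, hs, rfl⟩
    obtain ⟨d, rfl⟩ := Ideal.Quotient.mk_surjective d
    exact ⟨d * s, h.hl d s hs, map_mul (Ideal.Quotient.mk Q) d s⟩
  · rintro d _ ⟨s, hs, rfl⟩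
    obtain ⟨d, rfl⟩ := Ideal.Quotient.mk_surjective d
    exact ⟨s * d, h.hr d s hs, map_mul (Ideal.Quotient.mk Q) s d⟩
  · intro d
    obtain ⟨d, rfl⟩ := Ideal.Quotient.mk_surjective d
    obtain ⟨n, s, hs, rfl⟩ := h.hcase d
    exact ⟨n, _, ⟨s, hs, rfl⟩, by rw [map_add, map_intCast]; rfl⟩
  · intro u hu v hv
    obtain ⟨u, hu', rfl⟩ := hU u hu
    obtain ⟨v, hv', rfl⟩ := hU v hv
    rw [← map_mul, h.uv u hu' v hv', map_zero]
  · rintro u hu v hv _ ⟨z, hz, rfl⟩
    obtain ⟨u, hu', rfl⟩ := hU u hu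
    obtain ⟨v, hv', rfl⟩ := hU v hv
    rw [nu_apply, ← map_mul, ← map_mul, h.uzv u hu' v hv' z hz, map_zero]

/-- In a finite environment an element `u` of `S` survives in a small quotient. -/
theorem exists_small_quotient (h : Env p q f D S) (hD : Finite D) (u : D) (hu : u ∈ S)
    (hu0 : u ≠ 0) : ∃ (Q : Ideal D) (_ : Q.IsTwoSided), u ∉ Q ∧
      Finite (S.map (nu (Ideal.Quotient.mk Q))) ∧
      Nat.card (S.map (nu (Ideal.Quotient.mk Q))) ≤ q ^ 3 := by
  classical
  let 𝒬 : Set (Ideal D) := {Q | Q.IsTwoSided ∧ Q ≤ h.SId ∧ u ∉ Q}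
  have hfinI : Finite (Ideal D) := by
    have : Injective (fun Q : Ideal D => (Q : Set D)) := SetLike.coe_injective
    exact Finite.of_injective _ this
  have h𝒬fin : 𝒬.Finite := Set.toFinite _
  have h𝒬ne : 𝒬.Nonempty := ⟨⊥, inferInstance, bot_le, by rwa [Ideal.mem_bot]⟩
  obtain ⟨Q, hQ⟩ := h𝒬fin.exists_maximal h𝒬ne
  obtain ⟨⟨hQ2, hQS, huQ⟩, hmax⟩ := hQ
  refine ⟨Q, hQ2, huQ, ?_⟩
  have hE := h.quotient Q
  refine hE.card_le (Ideal.Quotient.mk Q u) ⟨u, hu, rfl⟩ (by
    rw [Ne, Ideal.Quotient.eq_zero_iff_mem]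
    exact huQ) ?_
  intro Q' hQ'2 hQ'0 hQ'S
  by_contra hcon
  apply hQ'0
  let P : Ideal D := Q'.comap (Ideal.Quotient.mk Q)
  have hQP : Q ≤ P := by
    intro x hx
    show Ideal.Quotient.mk Q x ∈ Q'
    rw [Ideal.Quotient.eq_zero_iff_mem.2 hx]
    exact Q'.zero_mem
  have hP2 : P.IsTwoSided := inferInstance
  have hPS : P ≤ h.SId := by
    intro x hx
    obtain ⟨s, hs, hsx⟩ := hQ'S hx
    have h1 : x - s ∈ Q := by
      rw [← Ideal.Quotient.eq_zero_iff_mem, map_sub]
      exact sub_eq_zero.2 hsx.symm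
    have h2 : x - s ∈ S := hQS h1
    have h3 := S.add_mem h2 hs
    rwa [sub_add_cancel] at h3
  have hPQ : P ≤ Q := hmax ⟨hP2, hPS, hcon⟩ hQP
  rw [eq_bot_iff]
  intro x hx
  obtain ⟨x, rfl⟩ := Ideal.Quotient.mk_surjective x
  rw [Ideal.mem_bot, Ideal.Quotient.eq_zero_iff_mem]
  exact hPQ hx

end Env

/-- A bound for the variables of a term. -/
def RTerm.bd : RTerm → ℕ
  | .var n => n
  | .zero => 0
  | .add s t => max s.bd t.bd
  | .neg s => s.bd
  | .mul s t => max s.bd t.bd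

theorem eval_congr {R : Type} [NonUnitalRing R] (t : RTerm) (a b : ℕ → R)
    (h : ∀ n, n ≤ t.bd → a n = b n) : t.eval a = t.eval b := by
  induction t with
  | var n => exact h n le_rfl
  | zero => rfl
  | add s t hs ht =>
    rw [RTerm.eval, RTerm.eval, hs fun n hn => h n (hn.trans (le_max_left _ _)),
      ht fun n hn => h n (hn.trans (le_max_right _ _))]
  | neg s hs => rw [RTerm.eval, RTerm.eval, hs fun n hn => h n hn]
  | mul s t hs ht =>
    rw [RTerm.eval, RTerm.eval, hs fun n hn => h n (hn.trans (le_max_left _ _)),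
      ht fun n hn => h n (hn.trans (le_max_right _ _))]

end Pool.Agent.D0H68.Eng
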