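import Pool.Agent.D0H68.Eng.Basic
import Pool.Agent.D0H68.Eng.Residue

set_option autoImplicit false

namespace Pool.Agent.D0H68.Eng

open Polynomial Function

section

variable {D : Type} [Ring D] (y : D)

/-- left multiplication by `y` -/
abbrev Ly : Module.End ℤ D := LinearMap.mulLeft ℤ y
/-- right multiplication by `y` -/
abbrev Ry : Module.End ℤ D := LinearMap.mulRight ℤ y

/-- the algebra generated by left and right multiplication by `y` -/
def AA : Subalgebra ℤ (Module.End ℤ D) := Algebra.adjoin ℤ {Ly y, Ry y}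

theorem AA_comm (a : Module.End ℤ D) (ha : a ∈ ({Ly y, Ry y} : Set (Module.End ℤ D)))
    (b : Module.End ℤ D) (hb : b ∈ ({Ly y, Ry y} : Set (Module.End ℤ D))) : a * b = b * a := by
  have h : Ly y * Ry y = Ry y * Ly y := by
    ext u
    exact (mul_assoc y u y).symm
  rcases ha with rfl | ha
  · rcases hb with rfl | hb
    · rfl
    · rw [Set.mem_singleton_iff.1 hb]; exact h
  · rw [Set.mem_singleton_iff.1 ha]
    rcases hb with rfl | hb
    · exact h.symm
    · rw [Set.mem_singleton_iff.1 hb]

noncomputable instance : CommRing (AA y) :=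
  { (inferInstance : Ring (AA y)) with
    mul_comm := fun a b =>
      (Algebra.isMulCommutative_adjoin ℤ (AA_comm y)).is_comm.comm a b }

instance : Algebra.FiniteType ℤ (AA y) := by
  have h : (AA y).FG := by
    classical
    have := Subalgebra.fg_adjoin_finset (R := ℤ) ({Ly y, Ry y} : Finset (Module.End ℤ D))
    unfold AA
    simpa using this
  exact (AA y).fg_iff_finiteType.1 h

/-- `L_y` as an element of the algebra -/
def La : AA y := ⟨Ly y, Algebra.subset_adjoin (Or.inl rfl)⟩
/-- `R_y` as an element of the algebra -/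
def Ra : AA y := ⟨Ry y, Algebra.subset_adjoin (Or.inr rfl)⟩

theorem AA_induction {p : D → Prop} (hadd : ∀ u v, p u → p v → p (u + v))
    (hneg : ∀ u, p u → p (-u)) (h0 : p 0)
    (hl : ∀ u, p u → p (y * u)) (hr : ∀ u, p u → p (u * y)) (a : AA y) (u : D) (hu : p u) :
    p ((a : Module.End ℤ D) u) := by
  obtain ⟨a, ha⟩ := a
  simp only
  revert u
  unfold AA at ha
  induction ha using Algebra.adjoin_induction with
  | mem x hx =>
    intro u hu
    rcases hx with rfl | hx
    · exact hl u hu
    · rw [Set.mem_singleton_iff.1 hx]; exact hr u hu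
  | algebraMap r =>
    intro u hu
    have h : ∀ n : ℤ, p (n • u) := by
      intro n
      induction n using Int.induction_on with
      | zero => rw [zero_smul]; exact h0
      | succ n ih => rw [add_smul, one_smul]; exact hadd _ _ ih hu
      | pred n ih => rw [sub_smul, one_smul, sub_eq_add_neg]; exact hadd _ _ ih (hneg _ hu)
    exact h r
  | add a b _ _ ha hb =>
    intro u hu
    exact hadd _ _ (ha u hu) (hb u hu)
  | mul a b _ _ ha hb =>
    intro u hu
    exact ha _ (hb u hu)

theorem aeval_La (c : ℤ[X]) (u : D) :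
    ((aeval (La y) c : AA y) : Module.End ℤ D) u = aeval y c * u := by
  have h1 : ((aeval (La y) c : AA y) : Module.End ℤ D) = aeval (Ly y) c := by
    have := Polynomial.aeval_algHom_apply (AA y).val (La y) c
    exact this.symm
  rw [h1]
  clear h1
  induction c using Polynomial.induction_on' with
  | add p q hp hq =>
    rw [map_add, map_add, LinearMap.add_apply, add_mul, hp, hq]
  | monomial n r =>
    rw [aeval_monomial, aeval_monomial, Ly, LinearMap.pow_mulLeft]
    simp [mul_assoc]

theorem aeval_Ra (c : ℤ[X]) (u : D) :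
    ((aeval (Ra y) c : AA y) : Module.End ℤ D) u = u * aeval y c := by
  have h1 : ((aeval (Ra y) c : AA y) : Module.End ℤ D) = aeval (Ry y) c := by
    have := Polynomial.aeval_algHom_apply (AA y).val (Ra y) c
    exact this.symm
  rw [h1]
  clear h1
  induction c using Polynomial.induction_on' with
  | add p q hp hq =>
    rw [map_add, map_add, LinearMap.add_apply, mul_add, hp, hq]
  | monomial n r =>
    rw [aeval_monomial, aeval_monomial, Ry, LinearMap.pow_mulRight]
    simp only [eq_intCast, Module.End.mul_apply, LinearMap.mulRight_apply, Module.End.intCast_apply,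
      zsmul_eq_mul]
    rw [← mul_assoc, ← mul_assoc, (Int.cast_commute r u).eq]

/-- The hypothesis on `m`: all products `m y^k m` vanish. -/
def Sq (m : D) : Prop := ∀ k : ℕ, m * y ^ k * m = 0

variable {y}

theorem sq_left {m : D} (hm : Sq y m) (a : AA y) (k : ℕ) :
    (a : Module.End ℤ D) m * y ^ k * m = 0 := by
  have := AA_induction y (p := fun u => ∀ k : ℕ, u * y ^ k * m = 0)
    (fun u v hu hv k => by rw [add_mul, add_mul, hu, hv, add_zero])
    (fun u hu k => by rw [neg_mul, neg_mul, hu, neg_zero])
    (fun k => by rw [zero_mul, zero_mul])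
    (fun u hu k => by rw [mul_assoc, mul_assoc, ← mul_assoc u, hu, mul_zero])
    (fun u hu k => by rw [mul_assoc u y, ← pow_succ', hu]) a m hm
  exact this k

theorem sq_both {m : D} (hm : Sq y m) (a b : AA y) :
    (a : Module.End ℤ D) m * (b : Module.End ℤ D) m = 0 := by
  have := AA_induction y (p := fun v => ∀ k : ℕ, (a : Module.End ℤ D) m * y ^ k * v = 0)
    (fun u v hu hv k => by rw [mul_add, hu, hv, add_zero])
    (fun u hu k => by rw [mul_neg, hu, neg_zero])
    (fun k => by rw [mul_zero])
    (fun u hu k => by rw [← mul_assoc, mul_assoc _ _ y, ← pow_succ, hu])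
    (fun u hu k => by rw [← mul_assoc, hu, zero_mul]) b m (sq_left hm a) 0
  simpa using this

theorem comm_eq_pow (m : D) (k : ℕ) :
    comm m y k = (((Ra y - La y) ^ k : AA y) : Module.End ℤ D) m := by
  induction k with
  | zero => rfl
  | succ k ih =>
    rw [comm, pow_succ', ih]
    rfl

/-- the annihilator of `m` -/
def annI (y m : D) : Ideal (AA y) where
  carrier := {a | (a : Module.End ℤ D) m = 0}
  zero_mem' := rfl
  add_mem' := fun {a b} ha hb => by
    have ha' : (a : Module.End ℤ D) m = 0 := ha
    have hb' : (b : Module.End ℤ D) m = 0 := hb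
    show ((a + b : AA y) : Module.End ℤ D) m = 0
    rw [Subalgebra.coe_add, LinearMap.add_apply, ha', hb', add_zero]
  smul_mem' := fun c a ha => by
    have ha' : (a : Module.End ℤ D) m = 0 := ha
    show ((c * a : AA y) : Module.End ℤ D) m = 0
    rw [Subalgebra.coe_mul, Module.End.mul_apply, ha', map_zero]

theorem mem_annI {m : D} {a : AA y} : a ∈ annI y m ↔ (a : Module.End ℤ D) m = 0 := Iff.rfl

theorem aeval_mem {S : NonUnitalSubring D} (hyS : y ∈ S) {c : ℤ[X]} (hc : c.coeff 0 = 0) :
    aeval y c ∈ S := by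
  obtain ⟨c1, rfl⟩ := X_dvd_iff.2 hc
  have h : ∀ n : ℕ, y ^ (n + 1) ∈ S := by
    intro n
    induction n with
    | zero => simpa using hyS
    | succ n ih => rw [pow_succ]; exact S.mul_mem ih hyS
  clear hc
  induction c1 using Polynomial.induction_on' with
  | add p q hp hq => rw [mul_add, map_add]; exact S.add_mem hp hq
  | monomial n r =>
    rw [map_mul, aeval_X, aeval_monomial, eq_intCast, ← mul_assoc, ← (Int.cast_commute r y).eq,
      mul_assoc, ← pow_succ', ← zsmul_eq_mul]
    exact zsmul_mem (h n) r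

theorem aeval_comm' (c : ℤ[X]) : aeval y c * y = y * aeval y c := by
  have h : aeval y (c * X) = aeval y (X * c) := by rw [mul_comm]
  rwa [map_mul, map_mul, aeval_X] at h

theorem of_zero_entries {K : Type} [Field K] :
    !![(0 : K), 0; 0, 0] = 0 := by
  ext i j
  fin_cases i <;> fin_cases j <;> simp

/-- **Extraction of a finite non-Engel ring.** -/
theorem exists_special {m : D} (hm : Sq y m) (hne : ∀ k : ℕ, comm m y k ≠ 0) :
    ∃ (K : Type) (_ : Field K) (_ : Finite K) (α β : K), α ≠ β ∧
      ∀ S : NonUnitalSubring D, y ∈ S → m ∈ S →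
        ∃ G : NonUnitalSubring (D × Matrix (Fin 2) (Fin 2) K),
          (∀ g ∈ G, g.1 ∈ S) ∧ (∀ g ∈ G, g.1 = 0 → g.2 = 0) ∧ (y, !![α, 0; 0, β]) ∈ G ∧
          (m, !![0, 1; 0, 0]) ∈ G ∧ ∀ g ∈ G, g.2 1 0 = 0 := by
  classical
  obtain ⟨K, iK, hfin, f, hf0, hfδ, -⟩ := exists_finite_field (annI y m) (Ra y - La y)
    (fun n hn => hne n (by rw [comm_eq_pow]; exact hn))
  have hf : ∀ (z : AA y) (c : ℤ[X]), f (aeval z c) = aeval (f z) c := fun z c =>
    (Polynomial.aeval_algHom_apply f.toIntAlgHom z c).symm
  refine ⟨K, iK, hfin, f (La y), f (Ra y), ?_, ?_⟩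
  · intro h
    exact hfδ (by rw [map_sub, h, sub_self])
  intro S hyS hmS
  let G : NonUnitalSubring (D × Matrix (Fin 2) (Fin 2) K) :=
    { carrier := {p | ∃ (c : ℤ[X]) (a : AA y), c.coeff 0 = 0 ∧
        p = (aeval y c + (a : Module.End ℤ D) m,
          !![aeval (f (La y)) c, f a; 0, aeval (f (Ra y)) c])}
      zero_mem' := ⟨0, 0, by simp, by
        ext i j
        · simp
        · fin_cases i <;> fin_cases j <;> simp⟩
      add_mem' := by
        rintro _ _ ⟨c, a, hc, rfl⟩ ⟨c', a', hc', rfl⟩
        refine ⟨c + c', a + a', by rw [coeff_add, hc, hc', add_zero], ?_⟩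
        ext i j
        · simp only [Prod.mk_add_mk, map_add, Subalgebra.coe_add, LinearMap.add_apply]
          abel
        · fin_cases i <;> fin_cases j <;> simp
      neg_mem' := by
        rintro _ ⟨c, a, hc, rfl⟩
        refine ⟨-c, -a, by rw [coeff_neg, hc, neg_zero], ?_⟩
        ext i j
        · simp only [Prod.neg_mk, map_neg, Subalgebra.coe_neg, LinearMap.neg_apply]
          abel
        · fin_cases i <;> fin_cases j <;> simp
      mul_mem' := by
        rintro _ _ ⟨c, a, hc, rfl⟩ ⟨c', a', hc', rfl⟩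
        refine ⟨c * c', aeval (La y) c * a' + aeval (Ra y) c' * a,
          by rw [mul_coeff_zero, hc, zero_mul], ?_⟩
        ext i j
        · simp only [Prod.mk_mul_mk, map_mul, Subalgebra.coe_add, Subalgebra.coe_mul,
            LinearMap.add_apply, Module.End.mul_apply, aeval_La, aeval_Ra, add_mul, mul_add,
            sq_both hm]
          abel
        · fin_cases i <;> fin_cases j <;>
            simp [hf, mul_comm] }
  refine ⟨G, ?_, ?_, ?_, ?_, ?_⟩
  · rintro _ ⟨c, a, hc, rfl⟩
    refine S.add_mem ?_ ?_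
    · exact aeval_mem hyS hc
    · exact AA_induction y (p := fun u => u ∈ S) (fun u v hu hv => S.add_mem hu hv)
        (fun u hu => S.neg_mem hu) S.zero_mem (fun u hu => S.mul_mem hyS hu)
        (fun u hu => S.mul_mem hu hyS) a m hmS
  · rintro _ ⟨c, a, hc, rfl⟩ h
    simp only at h ⊢
    have h1 : aeval y c = - (a : Module.End ℤ D) m := eq_neg_of_add_eq_zero_left h
    have hone : (a : Module.End ℤ D) m * m = 0 := by
      have := sq_both hm a 1
      simpa using this
    have hone' : m * (a : Module.End ℤ D) m = 0 := by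
      have := sq_both hm 1 a
      simpa using this
    have h2 : f (aeval (La y) c) = 0 := by
      apply hf0
      rw [mem_annI, aeval_La, h1, neg_mul, hone, neg_zero]
    have h3 : f (aeval (Ra y) c) = 0 := by
      apply hf0
      rw [mem_annI, aeval_Ra, h1, mul_neg, hone', neg_zero]
    have h4 : f ((Ra y - La y) * a) = 0 := by
      apply hf0
      rw [mem_annI]
      have h5 : (((Ra y - La y) * a : AA y) : Module.End ℤ D) m =
          (a : Module.End ℤ D) m * y - y * (a : Module.End ℤ D) m := rfl
      rw [h5]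
      have h6 : (a : Module.End ℤ D) m = - aeval y c := by rw [h1, neg_neg]
      rw [h6, neg_mul, mul_neg, sub_neg_eq_add, neg_add_eq_zero]
      exact aeval_comm' c
    have h7 : f a = 0 := by
      rw [map_mul] at h4
      exact (mul_eq_zero.1 h4).resolve_left hfδ
    rw [← hf, ← hf, h2, h3, h7]
    exact of_zero_entries
  · refine ⟨X, 0, coeff_X_zero, Prod.ext ?_ ?_⟩
    · show y = aeval y X + (0 : D)
      rw [aeval_X, add_zero]
    · show !![f (La y), 0; 0, f (Ra y)] = !![aeval (f (La y)) X, f 0; 0, aeval (f (Ra y)) X]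
      rw [aeval_X, aeval_X, map_zero]
  · refine ⟨0, 1, coeff_zero 0, Prod.ext ?_ ?_⟩
    · show m = aeval y (0 : ℤ[X]) + m
      rw [map_zero, zero_add]
    · show !![(0 : K), 1; 0, 0] =
        !![aeval (f (La y)) (0 : ℤ[X]), f 1; 0, aeval (f (Ra y)) (0 : ℤ[X])]
      rw [map_zero, map_zero, map_one]
  · rintro _ ⟨c, a, hc, rfl⟩
    rfl

end

end Pool.Agent.D0H68.Eng
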