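import Pool.Agent.D0H68.Eng.SI2

set_option autoImplicit false

namespace Pool.Agent.D0H68.Eng

open Function

/-- `n t` -/
def RTerm.nsm (t : RTerm) : ℕ → RTerm
  | 0 => .zero
  | n + 1 => .add (t.nsm n) t

/-- `t ^ (n + 1)` -/
def RTerm.pw (t : RTerm) : ℕ → RTerm
  | 0 => t
  | n + 1 => .mul (t.pw n) t

/-- the commutator -/
def RTerm.br (s t : RTerm) : RTerm := .add (.mul s t) (.neg (.mul t s))

/-- `t ^ q - t` -/
def RTerm.fr (q : ℕ) (t : RTerm) : RTerm := .add (t.pw (q - 1)) (.neg t)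

/-- The first set of identities. -/
def TT (p q : ℕ) : Set RTerm :=
  {(RTerm.var 0).nsm p,
    .mul (.br (.var 0) (.var 1)) (.br (.var 2) (.var 3)),
    .mul (.br (.var 0) (.var 1)) (.fr q (.var 2)),
    .mul (.fr q (.var 0)) (.br (.var 2) (.var 3)),
    .mul (.fr q (.var 0)) (.fr q (.var 2)),
    .mul (.br (.var 0) (.var 1)) (.mul (.var 4) (.br (.var 2) (.var 3))),
    .mul (.br (.var 0) (.var 1)) (.mul (.var 4) (.fr q (.var 2))),
    .mul (.fr q (.var 0)) (.mul (.var 4) (.br (.var 2) (.var 3))),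
    .mul (.fr q (.var 0)) (.mul (.var 4) (.fr q (.var 2)))}

theorem TT_finite (p q : ℕ) : (TT p q).Finite := by
  unfold TT
  exact Set.toFinite _

section

variable {R D : Type} [NonUnitalRing R] [Ring D] (j : R →ₙ+* D) (a : ℕ → R)

theorem ev_nsm (t : RTerm) (n : ℕ) : (t.nsm n).eval a = n • t.eval a := by
  induction n with
  | zero => rw [RTerm.nsm, RTerm.eval, zero_nsmul]
  | succ n ih => rw [RTerm.nsm, RTerm.eval, ih, succ_nsmul]

theorem ev_pw (t : RTerm) (n : ℕ) : j ((t.pw n).eval a) = (j (t.eval a)) ^ (n + 1) := by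
  induction n with
  | zero => rw [RTerm.pw, zero_add, pow_one]
  | succ n ih => rw [RTerm.pw, RTerm.eval, map_mul, ih, pow_succ _ (n + 1)]

theorem ev_br (s t : RTerm) : j ((RTerm.br s t).eval a) =
    j (s.eval a) * j (t.eval a) - j (t.eval a) * j (s.eval a) := by
  rw [RTerm.br, RTerm.eval, RTerm.eval, RTerm.eval, RTerm.eval, map_add, map_neg, map_mul,
    map_mul, sub_eq_add_neg]

theorem ev_fr {q : ℕ} (hq : 0 < q) (t : RTerm) : j ((RTerm.fr q t).eval a) =
    j (t.eval a) ^ q - j (t.eval a) := by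
  rw [RTerm.fr, RTerm.eval, RTerm.eval, map_add, map_neg, ev_pw, Nat.sub_add_cancel hq,
    sub_eq_add_neg]

end

/-- What the identities `TT` say. -/
theorem models_TT {R D : Type} [NonUnitalRing R] [Ring D] (j : R →ₙ+* D) (hj : Injective j)
    {p q : ℕ} (hq : 0 < q) : models (TT p q) R ↔
      (∀ r : R, p • r = 0) ∧
      (∀ u ∈ U0 q (NonUnitalRingHom.range j), ∀ v ∈ U0 q (NonUnitalRingHom.range j),
        u * v = 0) ∧
      (∀ u ∈ U0 q (NonUnitalRingHom.range j), ∀ v ∈ U0 q (NonUnitalRingHom.range j),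
        ∀ z ∈ NonUnitalRingHom.range j, u * (z * v) = 0) := by
  have hbr : ∀ s t : R, j s * j t - j t * j s ∈ U0 q (NonUnitalRingHom.range j) := fun s t =>
    Or.inl ⟨j s, ⟨s, rfl⟩, j t, ⟨t, rfl⟩, rfl⟩
  have hfr : ∀ s : R, j s ^ q - j s ∈ U0 q (NonUnitalRingHom.range j) := fun s =>
    Or.inr ⟨j s, ⟨s, rfl⟩, rfl⟩
  constructor
  · intro h
    have h1 := h _ (Or.inl rfl)
    have h2 := h _ (Or.inr (Or.inl rfl))
    have h3 := h _ (Or.inr (Or.inr (Or.inl rfl)))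
    have h4 := h _ (Or.inr (Or.inr (Or.inr (Or.inl rfl))))
    have h5 := h _ (Or.inr (Or.inr (Or.inr (Or.inr (Or.inl rfl)))))
    have h6 := h _ (Or.inr (Or.inr (Or.inr (Or.inr (Or.inr (Or.inl rfl))))))
    have h7 := h _ (Or.inr (Or.inr (Or.inr (Or.inr (Or.inr (Or.inr (Or.inl rfl)))))))
    have h8 := h _ (Or.inr (Or.inr (Or.inr (Or.inr (Or.inr (Or.inr (Or.inr (Or.inl rfl))))))))
    have h9 := h _ (Or.inr (Or.inr (Or.inr (Or.inr (Or.inr (Or.inr (Or.inr (Or.inr rfl))))))))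
    let va : R → R → R → R → R → ℕ → R := fun x0 x1 x2 x3 x4 n =>
      match n with
      | 0 => x0
      | 1 => x1
      | 2 => x2
      | 3 => x3
      | _ => x4
    refine ⟨?_, ?_, ?_⟩
    · intro r
      have := h1 (fun _ => r)
      rwa [ev_nsm] at this
    · rintro _ (⟨_, ⟨x0, rfl⟩, _, ⟨x1, rfl⟩, rfl⟩ | ⟨_, ⟨x0, rfl⟩, rfl⟩) _
        (⟨_, ⟨x2, rfl⟩, _, ⟨x3, rfl⟩, rfl⟩ | ⟨_, ⟨x2, rfl⟩, rfl⟩)
      · have := congrArg j (h2 (va x0 x1 x2 x3 0))
        rwa [RTerm.eval, map_mul, ev_br, ev_br, map_zero] at this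
      · have := congrArg j (h3 (va x0 x1 x2 0 0))
        rwa [RTerm.eval, map_mul, ev_br, ev_fr _ _ hq, map_zero] at this
      · have := congrArg j (h4 (va x0 0 x2 x3 0))
        rwa [RTerm.eval, map_mul, ev_br, ev_fr _ _ hq, map_zero] at this
      · have := congrArg j (h5 (va x0 0 x2 0 0))
        rwa [RTerm.eval, map_mul, ev_fr _ _ hq, ev_fr _ _ hq, map_zero] at this
    · rintro _ (⟨_, ⟨x0, rfl⟩, _, ⟨x1, rfl⟩, rfl⟩ | ⟨_, ⟨x0, rfl⟩, rfl⟩) _
        (⟨_, ⟨x2, rfl⟩, _, ⟨x3, rfl⟩, rfl⟩ | ⟨_, ⟨x2, rfl⟩, rfl⟩) _ ⟨z, rfl⟩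
      · have := congrArg j (h6 (va x0 x1 x2 x3 z))
        rwa [RTerm.eval, map_mul, RTerm.eval, map_mul, ev_br, ev_br, map_zero] at this
      · have := congrArg j (h7 (va x0 x1 x2 0 z))
        rwa [RTerm.eval, map_mul, RTerm.eval, map_mul, ev_br, ev_fr _ _ hq, map_zero] at this
      · have := congrArg j (h8 (va x0 0 x2 x3 z))
        rwa [RTerm.eval, map_mul, RTerm.eval, map_mul, ev_br, ev_fr _ _ hq, map_zero] at this
      · have := congrArg j (h9 (va x0 0 x2 0 z))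
        rwa [RTerm.eval, map_mul, RTerm.eval, map_mul, ev_fr _ _ hq, ev_fr _ _ hq,
          map_zero] at this
  · rintro ⟨hA, hB, hC⟩
    rintro t (rfl | rfl | rfl | rfl | rfl | rfl | rfl | rfl | rfl) a
    · rw [ev_nsm]
      exact hA _
    all_goals
      apply hj
      rw [map_zero]
    · rw [RTerm.eval, map_mul, ev_br, ev_br]
      exact hB _ (hbr _ _) _ (hbr _ _)
    · rw [RTerm.eval, map_mul, ev_br, ev_fr _ _ hq]
      exact hB _ (hbr _ _) _ (hfr _)
    · rw [RTerm.eval, map_mul, ev_br, ev_fr _ _ hq]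
      exact hB _ (hfr _) _ (hbr _ _)
    · rw [RTerm.eval, map_mul, ev_fr _ _ hq, ev_fr _ _ hq]
      exact hB _ (hfr _) _ (hfr _)
    · rw [RTerm.eval, map_mul, RTerm.eval, map_mul, ev_br, ev_br]
      exact hC _ (hbr _ _) _ (hbr _ _) _ ⟨_, rfl⟩
    · rw [RTerm.eval, map_mul, RTerm.eval, map_mul, ev_br, ev_fr _ _ hq]
      exact hC _ (hbr _ _) _ (hfr _) _ ⟨_, rfl⟩
    · rw [RTerm.eval, map_mul, RTerm.eval, map_mul, ev_br, ev_fr _ _ hq]
      exact hC _ (hfr _) _ (hbr _ _) _ ⟨_, rfl⟩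
    · rw [RTerm.eval, map_mul, RTerm.eval, map_mul, ev_fr _ _ hq, ev_fr _ _ hq]
      exact hC _ (hfr _) _ (hfr _) _ ⟨_, rfl⟩

/-- A ring satisfying `TT` sits in an environment. -/
theorem exists_env {R : Type} [NonUnitalRing R] {p q f : ℕ} (hp : p.Prime) (hf : 0 < f)
    (hq : q = p ^ f) (h : models (TT p q) R) :
    ∃ (D : Type) (_ : Ring D) (j : R →ₙ+* D), Injective j ∧
      Env p q f D (NonUnitalRingHom.range j) := by
  have hq0 : 0 < q := by rw [hq]; exact pow_pos hp.pos _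
  have hp0 : ∀ r : R, p • r = 0 := by
    intro r
    have := h _ (Or.inl rfl) (fun _ => r)
    rwa [ev_nsm] at this
  have hpf : Fact p.Prime := ⟨hp⟩
  let _ : Module (ZMod p) R := AddCommGroup.zmodModule hp0
  have hsm : ∀ (k : ℤ) (r : R), (k : ZMod p) • r = k • r := fun k r =>
    Int.cast_smul_eq_zsmul (ZMod p) k r
  have _ : IsScalarTower (ZMod p) R R := ⟨fun c r s => by
    obtain ⟨k, rfl⟩ := ZMod.intCast_surjective c
    rw [hsm, hsm, smul_eq_mul, smul_eq_mul, smul_mul_assoc]⟩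
  have _ : SMulCommClass (ZMod p) R R := ⟨fun c r s => by
    obtain ⟨k, rfl⟩ := ZMod.intCast_surjective c
    rw [hsm, hsm, smul_eq_mul, smul_eq_mul, mul_smul_comm]⟩
  let j : R →ₙ+* Unitization (ZMod p) R :=
    { toFun := Unitization.inr
      map_mul' := fun a b => Unitization.inr_mul (ZMod p) a b
      map_zero' := Unitization.inr_zero (ZMod p)
      map_add' := fun a b => Unitization.inr_add (ZMod p) a b }
  have hj : Injective j := Unitization.inr_injective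
  obtain ⟨-, hB, hC⟩ := (models_TT j hj hq0).1 h
  refine ⟨Unitization (ZMod p) R, inferInstance, j, hj, hp, hf, hq, ?_, ?_, ?_, ?_, hB, hC⟩
  · have h1 : ((p : ZMod p) : ZMod p) = 0 := ZMod.natCast_self p
    have h2 := congrArg (Unitization.inlRingHom (ZMod p) R) h1
    rwa [map_natCast, map_zero] at h2
  · rintro d _ ⟨s, rfl⟩
    refine ⟨d.fst • s + d.snd * s, ?_⟩
    apply Unitization.ext
    · show (0 : ZMod p) = d.fst * 0
      rw [mul_zero]
    · show d.fst • s + d.snd * s = d.fst • s + (0 : ZMod p) • d.snd + d.snd * s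
      rw [zero_smul, add_zero]
  · rintro d _ ⟨s, rfl⟩
    refine ⟨d.fst • s + s * d.snd, ?_⟩
    apply Unitization.ext
    · show (0 : ZMod p) = 0 * d.fst
      rw [zero_mul]
    · show d.fst • s + s * d.snd = (0 : ZMod p) • d.snd + d.fst • s + s * d.snd
      rw [zero_smul, zero_add]
  · intro d
    obtain ⟨k, hk⟩ := ZMod.intCast_surjective d.fst
    refine ⟨k, j d.snd, ⟨_, rfl⟩, ?_⟩
    refine (Unitization.inl_fst_add_inr_snd_eq d).symm.trans ?_
    rw [← hk]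
    congr 1
    exact map_intCast (Unitization.inlRingHom (ZMod p) R) k

end Pool.Agent.D0H68.Eng
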